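import Pool.Agent.Helper76.LVL.Grc
import Pool.Agent.Helper7.GZ.Sys

/-! LEVELS, the upper bound. The cells of level `b` of the point are known to the label, up to small entropy, and to the cells
of depth `max (b - w_j) 0` of the parameters of the adapted chart; hence the entropy of the cells of level `b` of the
point over the label is at most the mean of `sum max (b - w_j) 0`. -/

set_option autoImplicit false

namespace Pool.Agent.Helper76.LVL

open Finset Filter Topology Matrix Metric Pool.Agent.Helper69.RK Pool.Agent.Helper31.EC Pool.Agent.Helper31.EC.Sp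
open Pool.Agent.Helper40.EL
open Pool.Agent.Helper3.LF Pool.Agent.Helper84.MT
open Pool.Agent.Helper89.LX (sum_mul_le dl_one_le Sub_pow' leaf_axS typd0 typ_al AxS typd)
open Pool.Agent.Helper76.THK (e00)
open Pool.Agent.Helper63.FRT (e_pi_le)
open Pool.Agent.Helper76.ADP
open Pool.Agent.Helper7.GZ (PLe_cell_typ)

noncomputable section

variable {S : Sp} {M v q D : ℕ}

section

variable {hvq : v + q = M} {V : ∀ k, Setoid (S.F k).Ω} {Q : S.VV M}
    {E : ∀ k, (S.F k).Ω → (Fin v ⊕ Fin q ≃ Fin M)} {f : ∀ k, (S.F k).Ω → Fin q → MvPolynomial (Fin M) ℝ}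
    {w : ∀ k, (S.F k).Ω → Fin q → ℝ} {K : ℕ → ℝ} {A0 : ∀ k, (S.F k).Ω → Prop} {g L : ℕ}
    {La : ∀ k, Setoid ((rsp S q).F k).Ω} {P : (rsp S q).VV M} {N : ℕ → ℝ}
    {c : ∀ k, ((rsp S q).F k).Ω → Fin M → ℤ}
    {β : ∀ k, ((rsp S q).F k).Ω → Fin L} {A : ∀ k, ((rsp S q).F k).Ω → Prop}
    {l : Leaf (rsp S q) ((rpj S q).vv Q) (Pool.Agent.Helper84.MT.lin g)}

/-- the depth of the cells of the parameters -/
def dep (hvq : v + q = M) (w : ∀ k, (S.F k).Ω → Fin q → ℝ) (b η : ℝ) (k : ℕ) (ω : (S.F k).Ω) (a : Fin M) : ℝ :=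
  max (b - wal hvq (w k ω) a) 0 + η

/-- the cells of the parameters -/
def pcl (hvq : v + q = M) (w : ∀ k, (S.F k).Ω → Fin q → ℝ) (P : (rsp S q).VV M) (b η : ℝ) (k : ℕ)
    (w' : ((rsp S q).F k).Ω) (a : Fin M) : ℤ := ⌊P.v k w' a / S.dl (dep hvq w b η k w'.1 a) k⌋

/-- THE CELLS OF THE POINT are known to the cells of the parameters -/
theorem cell_known (x : RowsF V Q D E f w) (y : RowsK V Q D E f w K A0)
    (a : ALeaf hvq V Q E f w (aU Q f y.subK) g L La P
      (rv (aU Q f y.subK) (adl S M D w K) (adl_ev S M D w y.K1 x.w01)) N c β A l) {b η : ℝ} (hb1 : b ≤ 1) (hη : 0 < η) :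
    PLe (S := rsp S q) (fun k => fc (Setoid.ker (((rpj S q).vv Q).cellv b k)))
      (fun k => fc (La k ⊓ Setoid.ker (pcl hvq w P b η k))) := by
  obtain ⟨K1, hK1, hT⟩ := grad_all x y a
  obtain ⟨Kp, hKp, hpt⟩ := l.pt
  have hbig : ∀ᶠ k in UF, S.dl η k < 1 := by
    filter_upwards with k
    unfold Sp.dl
    apply Real.rpow_lt_one_of_one_lt_of_neg (by norm_num)
    have := mul_pos hη (S.F k).pos
    linarith
  have hSub : (rsp S q).Sub (fun k => 2 * Kp k + M * K1 k) :=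
    (((rsp S q).Sub_const zero_le_two).mul hKp).add (((rsp S q).Sub_const (Nat.cast_nonneg M)).mul hK1)
  refine PLe_cell_typ (S := rsp S q) ((rpj S q).vv Q) b _ _ hSub hT ?_
  filter_upwards [chart_diff l, hpt, hbig, l.fn, x.msw, hKp.1, hK1.1] with k h1 h2 h3 h4 h5 g1 g2 w1 w2 p1 p2 t1 t2 hz hB i
  have hLa : La k w1 w2 := hB.1
  have hpc : pcl hvq w P b η k w1 = pcl hvq w P b η k w2 := hB.2
  have hs1 := (rpj S q).supp k w1 p1
  have hs2 := (rpj S q).supp k w2 p2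
  have hV : V k w1.1 w2.1 := a.le k hLa
  have hw : w k w1.1 = w k w2.1 := h5 _ _ hs1 hs2 hz hV
  have hF : l.F k w1 = l.F k w2 := by
    apply h4 w1 w2 p1 p2 hz
    rw [a.eLa]
    exact hLa
  have hn := (S.F k).pos
  -- the parameters are close
  have hcl : ∀ a' : Fin M, |l.Y.v k w1 (Fin.cast a.he.symm a') - l.Y.v k w2 (Fin.cast a.he.symm a')| ≤
      S.dl (dep hvq w b η k w1.1 a') k := by
    intro a'
    rw [a.par, a.par]
    have e1 : ⌊P.v k w1 a' / S.dl (dep hvq w b η k w1.1 a') k⌋ = ⌊P.v k w2 a' / S.dl (dep hvq w b η k w2.1 a') k⌋ :=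
      congrFun hpc a'
    have e2 : dep hvq w b η k w2.1 a' = dep hvq w b η k w1.1 a' := by
      unfold dep
      rw [hw]
    rw [e2] at e1
    exact abs_sub_le_of_floor_eq (S.dl_pos _ k) e1
  have hdep : ∀ a' : Fin M, η ≤ dep hvq w b η k w1.1 a' := fun a' => by
    unfold dep
    have := le_max_right (b - wal hvq (w k w1.1) a') 0
    linarith
  have hball : ∀ i' : Fin l.e, |l.Y.v k w2 i' - l.Y.v k w1 i'| < 1 := by
    intro i'
    have h6 := hcl (Fin.cast a.he i')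
    have e1 : Fin.cast a.he.symm (Fin.cast a.he i') = i' := rfl
    rw [e1, abs_sub_comm] at h6
    have h7 : S.dl (dep hvq w b η k w1.1 (Fin.cast a.he i')) k ≤ S.dl η k := S.dl_anti (hdep _) k
    linarith
  -- the chart
  have h6 := path_le (F := fun z => l.F k w1 z i) (Y0 := l.Y.v k w1)
    (G := fun a' => K1 k * 2 ^ (-(wal hvq (w k w1.1) (Fin.cast a.he a') * (S.F k).n)))
    (fun a' z hz' => ⟨h1 w1 p1 a' i z hz', t1 (Fin.cast a.he a') i z hz'⟩)
    (y := l.Y.v k w1) (z := l.Y.v k w2) (fun i' => by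
      rw [sub_self, abs_zero]
      exact one_pos) hball
  have h7 : |l.F k w1 (l.Y.v k w1) i - l.F k w1 (l.Y.v k w2) i| ≤ M * K1 k * S.dl b k := by
    refine h6.trans ?_
    have h8 : ∀ a' ∈ (Finset.univ : Finset (Fin l.e)), K1 k * 2 ^ (-(wal hvq (w k w1.1) (Fin.cast a.he a') * (S.F k).n)) *
        |l.Y.v k w1 a' - l.Y.v k w2 a'| ≤ K1 k * S.dl b k := by
      intro a' _
      have h9 := hcl (Fin.cast a.he a')
      have e1 : Fin.cast a.he.symm (Fin.cast a.he a') = a' := rfl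
      rw [e1] at h9
      rw [mul_assoc]
      apply mul_le_mul_of_nonneg_left _ g2
      refine (mul_le_mul_of_nonneg_left h9 (by positivity)).trans ?_
      unfold Sp.dl
      rw [← Real.rpow_add (by norm_num)]
      apply Real.rpow_le_rpow_of_exponent_le (by norm_num)
      have h10 : b - wal hvq (w k w1.1) (Fin.cast a.he a') + η ≤ dep hvq w b η k w1.1 (Fin.cast a.he a') := by
        unfold dep
        have := le_max_left (b - wal hvq (w k w1.1) (Fin.cast a.he a')) 0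
        linarith
      nlinarith
    refine (Finset.sum_le_card_nsmul _ _ _ h8).trans (le_of_eq ?_)
    rw [Finset.card_univ, Fintype.card_fin, nsmul_eq_mul, a.he]
    ring
  have h8 := h2 w1 p1 i
  have h9 := h2 w2 p2 i
  rw [← hF] at h9
  have e1 : ((rpj S q).vv Q).v k w1 i - ((rpj S q).vv Q).v k w2 i =
      (((rpj S q).vv Q).v k w1 i - l.F k w1 (l.Y.v k w1) i) + (l.F k w1 (l.Y.v k w1) i - l.F k w1 (l.Y.v k w2) i) -
        (((rpj S q).vv Q).v k w2 i - l.F k w1 (l.Y.v k w2) i) := by ring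
  rw [e1]
  have e2 : (rsp S q).dl 1 k = S.dl 1 k := rfl
  have e3 : (rsp S q).dl b k = S.dl b k := rfl
  rw [e2] at h8 h9
  rw [e3]
  have h10 : S.dl 1 k ≤ S.dl b k := S.dl_anti hb1 k
  have h11 : Kp k * S.dl 1 k ≤ Kp k * S.dl b k := mul_le_mul_of_nonneg_left h10 g1
  have h12 := abs_sub ((((rpj S q).vv Q).v k w1 i - l.F k w1 (l.Y.v k w1) i) +
    (l.F k w1 (l.Y.v k w1) i - l.F k w1 (l.Y.v k w2) i)) (((rpj S q).vv Q).v k w2 i - l.F k w1 (l.Y.v k w2) i)
  have h13 := abs_add_le (((rpj S q).vv Q).v k w1 i - l.F k w1 (l.Y.v k w1) i)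
    (l.F k w1 (l.Y.v k w1) i - l.F k w1 (l.Y.v k w2) i)
  linarith

/-- the entropy of the cells of the parameters -/
theorem pcl_ent (x : RowsF V Q D E f w) (hvq : v + q = M) {P : (rsp S q).VV M}
    (hP : ∀ᶠ k in UF, ∀ w' j, 0 ≤ P.v k w' j ∧ P.v k w' j ≤ 1) {b η : ℝ} (hη : 0 < η) :
    ∀ᶠ k in UF, ∀ B : Setoid ((rsp S q).F k).Ω, B ≤ (rpj S q).pb V k ⊓ ((rsp S q).F k).Z →
      ((rsp S q).F k).e (Setoid.ker (pcl hvq w P b η k)) B ≤
        (∑ ω, (S.F k).μ ω * ∑ a, dep hvq w b η k ω a) * (S.F k).n + 2 * M := by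
  filter_upwards [hP, x.msw] with k h1 h2 B hB
  have hn := (S.F k).pos
  obtain ⟨F', hF'⟩ : ∃ F' : FSp, F' = (rsp S q).F k := ⟨_, rfl⟩
  have h3 := e_pi_le ((rsp S q).F k) (pcl hvq w P b η k) B
  have h4 : ∀ a : Fin M, ((rsp S q).F k).e (Setoid.ker fun w' => pcl hvq w P b η k w' a) B ≤
      ∑ ω, (S.F k).μ ω * (dep hvq w b η k ω a * (S.F k).n + 2) := by
    intro a
    have h5 := e_int_pt ((rsp S q).F k) (fun w' => pcl hvq w P b η k w' a) B
      (fun w' => 2 ^ (dep hvq w b η k w'.1 a * (S.F k).n) + 1) (by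
      intro w0 w1 w2 p0 p1 p2 b1 b2
      have hs := fun w' hw' => (rpj S q).supp k w' hw'
      have c1 : w k w1.1 = w k w0.1 := h2 _ _ (hs w1 p1) (hs w0 p0) (hB b1).2 (hB b1).1
      have c2 : w k w2.1 = w k w0.1 := h2 _ _ (hs w2 p2) (hs w0 p0) (hB b2).2 (hB b2).1
      have d1 : dep hvq w b η k w1.1 a = dep hvq w b η k w0.1 a := by
        unfold dep
        rw [c1]
      have d2 : dep hvq w b η k w2.1 a = dep hvq w b η k w0.1 a := by
        unfold dep
        rw [c2]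
      unfold pcl
      rw [d1, d2]
      have e1 : (S.dl (dep hvq w b η k w0.1 a) k)⁻¹ = 2 ^ (dep hvq w b η k w0.1 a * (S.F k).n) := by
        unfold Sp.dl
        rw [Real.rpow_neg (by norm_num), inv_inv]
      have e2 : ∀ w', 0 ≤ P.v k w' a / S.dl (dep hvq w b η k w0.1 a) k ∧
          P.v k w' a / S.dl (dep hvq w b η k w0.1 a) k ≤ 2 ^ (dep hvq w b η k w0.1 a * (S.F k).n) := by
        intro w'
        have := h1 w' a
        rw [div_eq_mul_inv, e1]
        have h6 : (0 : ℝ) < 2 ^ (dep hvq w b η k w0.1 a * (S.F k).n) := by positivity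
        constructor
        · exact mul_nonneg this.1 h6.le
        · nlinarith [this.2]
      have c3 := Int.floor_le (P.v k w1 a / S.dl (dep hvq w b η k w0.1 a) k)
      have c4 := Int.lt_floor_add_one (P.v k w1 a / S.dl (dep hvq w b η k w0.1 a) k)
      have c5 := Int.floor_le (P.v k w2 a / S.dl (dep hvq w b η k w0.1 a) k)
      have c6 := Int.lt_floor_add_one (P.v k w2 a / S.dl (dep hvq w b η k w0.1 a) k)
      have c7 := e2 w1
      have c8 := e2 w2
      rw [abs_le]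
      constructor <;> linarith)
    refine h5.trans ?_
    have h9 := Pool.Agent.Helper66.HK.e5_sum_push ((rsp S q).F k).μ ((rpj S q).π k)
      (fun ω => Real.logb 2 (2 ^ (dep hvq w b η k ω a * (S.F k).n) + 1 + 1))
    rw [(rpj S q).law k] at h9
    refine (le_of_eq h9.symm).trans ?_
    refine Finset.sum_le_sum fun ω _ => mul_le_mul_of_nonneg_left ?_ ((S.F k).nn ω)
    have hd0 : 0 ≤ dep hvq w b η k ω a * (S.F k).n := by
      apply mul_nonneg _ hn.le
      unfold dep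
      have := le_max_right (b - wal hvq (w k ω) a) 0
      linarith
    have h11 : (2 : ℝ) ^ (dep hvq w b η k ω a * (S.F k).n) + 1 + 1 ≤ 2 ^ (dep hvq w b η k ω a * (S.F k).n + 2) := by
      have h12 : (1 : ℝ) ≤ 2 ^ (dep hvq w b η k ω a * (S.F k).n) := Real.one_le_rpow (by norm_num) hd0
      rw [Real.rpow_add (by norm_num)]
      norm_num
      linarith
    refine (Real.logb_le_logb_of_le (by norm_num) (by positivity) h11).trans (le_of_eq ?_)
    rw [Real.logb_rpow (by norm_num) (by norm_num)]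
  refine h3.trans ((Finset.sum_le_sum fun a _ => h4 a).trans (le_of_eq ?_))
  rw [Finset.sum_comm]
  have e3 : ∑ ω, (S.F k).μ ω = 1 := (S.F k).ms
  have e4 : ∀ ω, ∑ a : Fin M, (S.F k).μ ω * (dep hvq w b η k ω a * (S.F k).n + 2) =
      ((S.F k).μ ω * ∑ a, dep hvq w b η k ω a) * (S.F k).n + (S.F k).μ ω * (2 * M) := by
    intro ω
    rw [← Finset.mul_sum, Finset.sum_add_distrib, ← Finset.sum_mul, Finset.sum_const, Finset.card_univ,
      Fintype.card_fin, nsmul_eq_mul]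
    ring
  rw [Finset.sum_congr rfl fun ω _ => e4 ω, Finset.sum_add_distrib, ← Finset.sum_mul, ← Finset.sum_mul, e3, one_mul]

/-- LEVELS, the upper bound, for an adapted leaf -/
theorem lvl_aux (x : RowsF V Q D E f w) (y : RowsK V Q D E f w K A0)
    (a : ALeaf hvq V Q E f w (aU Q f y.subK) g L La P
      (rv (aU Q f y.subK) (adl S M D w K) (adl_ev S M D w y.K1 x.w01)) N c β A l) {b : ℝ} (hb0 : 0 ≤ b) (hb1 : b ≤ 1)
    (ε : ℝ) (hε : 0 < ε) :
    ∀ᶠ k in UF, (S.F k).e (Setoid.ker (Q.cellv b k)) (V k ⊓ (S.F k).Z) ≤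
      (v * b + ∑ ω, (S.F k).μ ω * ∑ j, max (b - w k ω j) 0 + ε) * (S.F k).n := by
  have hη : 0 < ε / (4 * (M + 1)) := by positivity
  have h1 := cell_known x y a hb1 hη
  have h2 := pcl_ent (b := b) (η := ε / (4 * (M + 1))) x hvq a.uP hη
  have hc : Tendsto (fun k => ((2 * M : ℕ) : ℝ) / (S.F k).n) UF (𝓝 0) := S.div_n_tendsto _
  filter_upwards [h1.eventually (gt_mem_nhds (show 0 < ε / 4 by linarith)), h2,
    a.ent.eventually (gt_mem_nhds (show 0 < ε / 4 by linarith)),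
    hc.eventually (gt_mem_nhds (show 0 < ε / 4 by linarith))] with k a1 a2 a3 a4
  have hn : 0 < (S.F k).n := (S.F k).pos
  have hnT : ((rsp S q).F k).n = (S.F k).n := rfl
  rw [hnT, div_lt_iff₀ hn, h_fc] at a1 a3
  rw [div_lt_iff₀ hn] at a4
  -- back to the space
  have e1 : ((rsp S q).F k).e (Setoid.ker (((rpj S q).vv Q).cellv b k)) ((rpj S q).pb V k ⊓ ((rsp S q).F k).Z) =
      (S.F k).e (Setoid.ker (Q.cellv b k)) (V k ⊓ (S.F k).Z) := by
    rw [vv_cellv]
    exact (rpj S q).e_comap k (Setoid.ker (Q.cellv b k)) (V k ⊓ (S.F k).Z)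
  rw [← e1]
  have h3 := ((rsp S q).F k).e_triangle (Setoid.ker (((rpj S q).vv Q).cellv b k))
    (La k ⊓ Setoid.ker (pcl hvq w P b (ε / (4 * (M + 1))) k)) ((rpj S q).pb V k ⊓ ((rsp S q).F k).Z)
  have h4 : ((rsp S q).F k).e (Setoid.ker (((rpj S q).vv Q).cellv b k))
      ((La k ⊓ Setoid.ker (pcl hvq w P b (ε / (4 * (M + 1))) k)) ⊓ ((rpj S q).pb V k ⊓ ((rsp S q).F k).Z)) ≤
      ((rsp S q).F k).e (Setoid.ker (((rpj S q).vv Q).cellv b k))
      ((La k ⊓ Setoid.ker (pcl hvq w P b (ε / (4 * (M + 1))) k)) ⊓ ((rsp S q).F k).Z) :=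
    ((rsp S q).F k).e_anti fun w1 w2 _ _ h => ⟨h.1, h.2.2⟩
  have h5 := ((rsp S q).F k).e_chain (La k) (Setoid.ker (pcl hvq w P b (ε / (4 * (M + 1))) k))
    ((rpj S q).pb V k ⊓ ((rsp S q).F k).Z)
  have h6 := a2 (La k ⊓ ((rpj S q).pb V k ⊓ ((rsp S q).F k).Z)) inf_le_right
  -- the sum
  have h7 : ∑ ω, (S.F k).μ ω * ∑ a, dep hvq w b (ε / (4 * (M + 1))) k ω a ≤
      v * b + ∑ ω, (S.F k).μ ω * ∑ j, max (b - w k ω j) 0 + ε / 4 := by
    have h8 : ∀ ω, ∑ a, dep hvq w b (ε / (4 * (M + 1))) k ω a = v * b + ∑ j, max (b - w k ω j) 0 + M * (ε / (4 * (M + 1))) := by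
      intro ω
      unfold dep
      rw [Finset.sum_add_distrib, Finset.sum_const, Finset.card_univ, Fintype.card_fin, nsmul_eq_mul,
        ← Equiv.sum_comp (e00 hvq), Fintype.sum_sum_type]
      congr 2
      · simp only [wal_inl, sub_zero, max_eq_left hb0]
        rw [Finset.sum_const, Finset.card_univ, Fintype.card_fin, nsmul_eq_mul]
      · simp only [wal_inr]
    have e3 : ∑ ω, (S.F k).μ ω = 1 := (S.F k).ms
    have h9 : ∑ ω, (S.F k).μ ω * ∑ a, dep hvq w b (ε / (4 * (M + 1))) k ω a =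
        v * b + ∑ ω, (S.F k).μ ω * ∑ j, max (b - w k ω j) 0 + M * (ε / (4 * (M + 1))) := by
      have h10 : ∀ ω, (S.F k).μ ω * ∑ a, dep hvq w b (ε / (4 * (M + 1))) k ω a =
          (S.F k).μ ω * (v * b + M * (ε / (4 * (M + 1)))) + (S.F k).μ ω * ∑ j, max (b - w k ω j) 0 := by
        intro ω
        rw [h8]
        ring
      rw [Finset.sum_congr rfl fun ω _ => h10 ω, Finset.sum_add_distrib, ← Finset.sum_mul, e3]
      ring
    rw [h9]
    have h10 : (M : ℝ) * (ε / (4 * (M + 1))) ≤ ε / 4 := by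
      have hM : (0 : ℝ) < (M : ℝ) + 1 := by positivity
      rw [mul_div_assoc', div_le_div_iff₀ (by positivity) (by norm_num)]
      nlinarith
    linarith
  push_cast at a4
  nlinarith

end

/-- LEVELS, the upper bound -/
theorem lvl_le (hvq : v + q = M) (hD : 1 ≤ D) {V : ∀ k, Setoid (S.F k).Ω} {Q : S.VV M}
    {E : ∀ k, (S.F k).Ω → (Fin v ⊕ Fin q ≃ Fin M)} {f : ∀ k, (S.F k).Ω → Fin q → MvPolynomial (Fin M) ℝ}
    {w : ∀ k, (S.F k).Ω → Fin q → ℝ} (x : RowsF V Q D E f w) {b : ℝ} (hb0 : 0 ≤ b) (hb1 : b ≤ 1) (ε : ℝ) (hε : 0 < ε) :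
    ∀ᶠ k in UF, (S.F k).e (Setoid.ker (Q.cellv b k)) (V k ⊓ (S.F k).Z) ≤
      (v * b + ∑ ω, (S.F k).μ ω * ∑ j, max (b - w k ω j) 0 + ε) * (S.F k).n := by
  obtain ⟨K, A0, y, La, P, N, c, β, A, l, a⟩ := adapted_x hvq hD x
  exact lvl_aux x y a hb0 hb1 ε hε

end

end Pool.Agent.Helper76.LVL
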