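import Pool.Agent.Helper76.LVL.Frl
import Pool.Agent.Helper89.MG.Typf

/-! THE GRADIENT OF THE ADAPTED CHART. The parameter of a row `j` is fresh below the level `1 - w_j`, the point does not see
the fresh digits: the derivative of the chart in the direction `j` is typically at most `2 ^ (- w_j n)`. -/

set_option autoImplicit false

namespace Pool.Agent.Helper76.LVL

open Finset Filter Topology Matrix Metric Pool.Agent.Helper69.RK Pool.Agent.Helper31.EC Pool.Agent.Helper31.EC.Sp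
open Pool.Agent.Helper40.EL
open Pool.Agent.Helper3.LF Pool.Agent.Helper84.MT
open Pool.Agent.Helper89.LX (dot_self_nonneg sum_mul_le dl_one_le Sub_pow' leaf_axS typd0 typ_al AxS typd)
open Pool.Agent.Helper76.RL (jac)
open Pool.Agent.Helper63.FRT
open Pool.Agent.Helper76.PUR
open Pool.Agent.Helper76.LG
open Pool.Agent.Helper76.THK (e00 clp clp_bd clp_eq LR relp relp_deg relp_spec relp_root cnt_fc cv)
open Pool.Agent.Helper85.OA
open Pool.Agent.Helper76.ADP

noncomputable section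

variable {S : Sp} {M v q D : ℕ}

/-- THE ADAPTED LEAF with the formula of the fresh digits -/
theorem adapted_x (hvq : v + q = M) (hD : 1 ≤ D) {V : ∀ k, Setoid (S.F k).Ω} {Q : S.VV M}
    {E : ∀ k, (S.F k).Ω → (Fin v ⊕ Fin q ≃ Fin M)} {f : ∀ k, (S.F k).Ω → Fin q → MvPolynomial (Fin M) ℝ}
    {w : ∀ k, (S.F k).Ω → Fin q → ℝ} (x : RowsF V Q D E f w) :
    ∃ (K : ℕ → ℝ) (A0 : ∀ k, (S.F k).Ω → Prop) (y : RowsK V Q D E f w K A0)
      (La : ∀ k, Setoid ((rsp S q).F k).Ω) (P : (rsp S q).VV M) (N : ℕ → ℝ)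
      (c : ∀ k, ((rsp S q).F k).Ω → Fin M → ℤ)
      (β : ∀ k, ((rsp S q).F k).Ω → Fin (nA M D)) (A : ∀ k, ((rsp S q).F k).Ω → Prop)
      (l : Leaf (rsp S q) ((rpj S q).vv Q) (Pool.Agent.Helper84.MT.lin (gA M D))),
      ALeaf hvq V Q E f w (aU Q f y.subK) (gA M D) (nA M D) La P
        (rv (aU Q f y.subK) (adl S M D w K) (adl_ev S M D w y.K1 x.w01)) N c β A l := by
  classical
  obtain ⟨K, A0, y⟩ := exists_K x
  obtain ⟨F, z, hR⟩ := adp_root hvq hD x y
  have hL1 : 1 ≤ LR M D := le_max_left _ _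
  obtain ⟨La, P, N, c, β, A, l, s⟩ := pleaf1 le_rfl hL1 (chF_of_root one_pos hL1 hR)
    ((rpj S q).vv Q) ⟨fun _ => 1, (rsp S q).Sub_const zero_le_one,
      Eventually.of_forall fun k w' _ i => by
        rw [sub_self, abs_zero, one_mul]
        exact ((rsp S q).dl_pos 1 k).le⟩
  have hwin : ∀ b : ℝ, PLe (S := rsp S q) (fun k => fc (La k ⊓ Setoid.ker (P.cellv b k)))
      (fun k => fc (aB V (aS Q E) (aU Q f y.subK) w b k)) := fun b =>
    win_mix hvq x y s.ent s.N1 s.subN s.eP s.msc b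
  refine ⟨K, A0, y, La, P, N, c, β, A, l,
    ⟨s.he, s.eLa, s.par, ?_, s.le, ?_, s.ent, s.N1, s.subN, ?_, ?_, ?_, ?_, s.uP, s.msc, ?_, s.tA, s.idx, hwin, ?_⟩⟩
  · filter_upwards [s.chart] with k hk w' y' i
    exact hk w' y' _ _ (apin_inl hvq E k w' i)
  · intro hV
    exact s.vb ((rpj S q).vb_pb.mpr hV)
  · intro k w' i
    rw [s.eP, aY_inl]
  · intro k w' j
    rw [s.eP, aY_inr]
    rfl
  · intro k w' j
    exact (rvl_near (aU Q f y.subK) (adl S M D w K) k w' j (adl_pos S M D w y.K1 k _ j)).trans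
      (adl_dl S M D w y.K1 k _ j)
  · refine y.tA.mono ?_
    filter_upwards [y.bd] with k hk ω hω hA j
    exact clp_eq (hk ω hω hA j)
  · filter_upwards [s.fl] with k hk w'
    refine ⟨fun i => ?_, fun j => ?_⟩
    · rw [hk, aY_inl]
    · rw [hk, aY_inr]
      rfl
  · intro b
    have e1 : (fun k => fc (La k ⊓ Setoid.ker (P.cellv b k))) = l.win b := by
      funext k
      unfold Leaf.win
      rw [s.eLa]
      congr 2
      ext w1 w2
      constructor
      · intro hh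
        show l.Y.cellv b k w1 = l.Y.cellv b k w2
        funext j
        have e2 : ∀ w', l.Y.v k w' j = P.v k w' (Fin.cast s.he j) := by
          intro w'
          rw [← s.par k w' (Fin.cast s.he j)]
          rfl
        show ⌊l.Y.v k w1 j / _⌋ = ⌊l.Y.v k w2 j / _⌋
        rw [e2, e2]
        exact congrFun hh (Fin.cast s.he j)
      · intro hh
        show P.cellv b k w1 = P.cellv b k w2
        funext j
        show ⌊P.v k w1 j / _⌋ = ⌊P.v k w2 j / _⌋
        rw [← s.par k w1 j, ← s.par k w2 j]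
        exact congrFun hh (Fin.cast s.he.symm j)
    have h2 := hwin b
    rw [e1] at h2
    exact h2

/-- a derivative from the Bernstein inequality on a segment about the point -/
lemma deriv_seg {φ : ℝ → ℝ} {d p ℓ B A c : ℝ} (hd : HasDerivAt φ d p) (hℓ : 0 < ℓ) (hB : 0 ≤ B) (hA0 : 0 ≤ A)
    (hψ : BmS B (fun u => φ (p - ℓ / 2 + u * ℓ) - c)) (hA : ∀ u ∈ Set.Icc (0 : ℝ) 1, |φ (p - ℓ / 2 + u * ℓ) - c| ≤ A) :
    |d| * ℓ ≤ B * A := by
  have h1 := HasDerivAt.le_of_lip' hd (C := B * A / ℓ) (by positivity) (by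
    have h2 : ∀ᶠ t in 𝓝 p, |t - p| < ℓ / 2 := by
      have := Metric.ball_mem_nhds p (show 0 < ℓ / 2 by linarith)
      filter_upwards [this] with t ht
      rw [Metric.mem_ball, Real.dist_eq] at ht
      exact ht
    filter_upwards [h2] with t ht
    rw [abs_lt] at ht
    have h3 : (1 / 2 + (t - p) / ℓ) ∈ Set.Icc (0 : ℝ) 1 := by
      constructor
      · have : -(1 / 2) ≤ (t - p) / ℓ := by
          rw [le_div_iff₀ hℓ]
          linarith
        linarith
      · have : (t - p) / ℓ ≤ 1 / 2 := by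
          rw [div_le_iff₀ hℓ]
          linarith
        linarith
    have h4 : (1 / 2 : ℝ) ∈ Set.Icc (0 : ℝ) 1 := by constructor <;> norm_num
    have h5 : |φ (p - ℓ / 2 + (1 / 2 + (t - p) / ℓ) * ℓ) - c - (φ (p - ℓ / 2 + 1 / 2 * ℓ) - c)| ≤
      B * |1 / 2 + (t - p) / ℓ - 1 / 2| * A := hψ A hA _ h3 _ h4
    have e1 : p - ℓ / 2 + (1 / 2 + (t - p) / ℓ) * ℓ = t := by
      field_simp
      ring
    have e2 : p - ℓ / 2 + 1 / 2 * ℓ = p := by ring
    rw [e1, e2] at h5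
    have e3 : φ t - c - (φ p - c) = φ t - φ p := by ring
    have e4 : (1 : ℝ) / 2 + (t - p) / ℓ - 1 / 2 = (t - p) / ℓ := by ring
    rw [e3, e4, abs_div, abs_of_pos hℓ] at h5
    rw [Real.norm_eq_abs, Real.norm_eq_abs]
    refine h5.trans (le_of_eq ?_)
    ring)
  rw [Real.norm_eq_abs, le_div_iff₀ hℓ] at h1
  exact h1

/-- TYPICAL VALUES on the interval of the position -/
theorem pos_typ {j0 : Fin q} {m : ℕ → ℕ} (hm : ∀ k, 1 ≤ m k) (hs : S.Sub fun k => (m k : ℝ))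
    {V : ∀ k, Setoid (S.F k).Ω} {La : ∀ k, Setoid ((rsp S q).F k).Ω}
    (hLa : Tendsto (fun k => h (fc (La k)) (fc ((rpj S q).pb V k)) / ((rsp S q).F k).n) UF (𝓝 0))
    (F1 : ∀ k, ((rsp S q).F k).Ω → ℝ → ℝ) (n0 : ℕ) {K : ℕ → ℝ} (hK : (rsp S q).Sub K)
    (hfn : ∀ᶠ k in UF, ∀ w1 w2, ((rsp S q).F k).μ w1 ≠ 0 → ((rsp S q).F k).μ w2 ≠ 0 → ((rsp S q).F k).Z w1 w2 →
      fLa S j0 m La k w1 w2 → F1 k w1 = F1 k w2)
    (hf : ∀ᶠ k in UF, ∀ w', ((rsp S q).F k).μ w' ≠ 0 → ∀ α β' : ℝ, |α - fpos S j0 m k w'| < 1 →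
      |β' - fpos S j0 m k w'| < 1 → RemS (n0 + 1) (K k) (fun u : ℝ => F1 k w' (α + u * (β' - α))) ∧
        BmS (K k) (fun u : ℝ => F1 k w' (α + u * (β' - α)))) :
    ∃ (K' : ℕ → ℝ) (G : ∀ k, ((rsp S q).F k).Ω → Prop), (rsp S q).Sub K' ∧ Typ G ∧ ∀ᶠ k in UF, ∀ w',
      ((rsp S q).F k).μ w' ≠ 0 → G k w' → ∀ t : ℝ, |t - fpos S j0 m k w'| < 1 →
        |F1 k w' t| ≤ K' k * |F1 k w' (fpos S j0 m k w')| := by
  obtain ⟨K', G, h1, h2, h3⟩ := typd0 (fleaf S j0 m hm hs V La hLa) (fun k w' (y : Fin 1 → ℝ) => F1 k w' (y 0)) n0 K hK (by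
    filter_upwards [hfn] with k hk w1 w2 a b z d
    have e1 := hk w1 w2 a b z d
    show (fun (y : Fin 1 → ℝ) => F1 k w1 (y 0)) = fun (y : Fin 1 → ℝ) => F1 k w2 (y 0)
    rw [e1]) (by
    filter_upwards [hf] with k hk w' hw'
    show AxS (e := 1) (n0 + 1) (K k) (fun _ => fpos S j0 m k w') (fun (y : Fin 1 → ℝ) => F1 k w' (y 0))
    intro y hy j α β' hα hβ
    have ej : j = 0 := Subsingleton.elim _ _
    subst ej
    have h4 := hk w' hw' α β' hα hβ
    have e1 : (fun u : ℝ => (fun (y : Fin 1 → ℝ) => F1 k w' (y 0)) (Function.update y 0 (α + u * (β' - α)))) =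
        fun u => F1 k w' (α + u * (β' - α)) := by
      funext u
      show F1 k w' (Function.update y 0 (α + u * (β' - α)) 0) = _
      rw [Function.update_self]
    rw [e1]
    exact h4)
  refine ⟨K', G, h1, h2, ?_⟩
  filter_upwards [h3] with k hk w' hw' hG t ht
  exact hk w' hw' hG (fun _ => t) (fun _ => ht)

section

variable {hvq : v + q = M} {V : ∀ k, Setoid (S.F k).Ω} {Q : S.VV M}
    {E : ∀ k, (S.F k).Ω → (Fin v ⊕ Fin q ≃ Fin M)} {f : ∀ k, (S.F k).Ω → Fin q → MvPolynomial (Fin M) ℝ}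
    {w : ∀ k, (S.F k).Ω → Fin q → ℝ} {K : ℕ → ℝ} {A0 : ∀ k, (S.F k).Ω → Prop} {g L : ℕ}
    {La : ∀ k, Setoid ((rsp S q).F k).Ω} {P : (rsp S q).VV M} {N : ℕ → ℝ}
    {c : ∀ k, ((rsp S q).F k).Ω → Fin M → ℤ}
    {β : ∀ k, ((rsp S q).F k).Ω → Fin L} {A : ∀ k, ((rsp S q).F k).Ω → Prop}
    {l : Leaf (rsp S q) ((rpj S q).vv Q) (Pool.Agent.Helper84.MT.lin g)}

/-- the parameter of the row as a function of the relative position -/
def fpar (U : S.VV q) (δ : ∀ k, (S.F k).Ω → Fin q → ℝ) (N : ℕ → ℝ) (m : ℕ → ℕ) (j : Fin q) (k : ℕ)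
    (w' : ((rsp S q).F k).Ω) (ck : ℝ) (t : ℝ) : ℝ :=
  N k * (δ k w'.1 j * (rfo U δ k w'.1 j + (fidx S j m k w' + t) / m k)) - ck

lemma fpar_pos (U : S.VV q) (δ : ∀ k, (S.F k).Ω → Fin q → ℝ) (N : ℕ → ℝ) (m : ℕ → ℕ) (j : Fin q) (k : ℕ)
    (w' : ((rsp S q).F k).Ω) (ck : ℝ) (hm : 1 ≤ m k) :
    fpar U δ N m j k w' ck (fpos S j m k w') = N k * rvl U δ k w' j - ck := by
  have hmk : (0 : ℝ) < m k := by exact_mod_cast hm
  have hg : (0 : ℝ) < (gn S k : ℝ) + 1 := by positivity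
  unfold fpar fpos rvl
  congr 4
  field_simp
  ring

lemma fpar_sub (U : S.VV q) (δ : ∀ k, (S.F k).Ω → Fin q → ℝ) (N : ℕ → ℝ) (m : ℕ → ℕ) (j : Fin q) (k : ℕ)
    (w' : ((rsp S q).F k).Ω) (ck t s : ℝ) :
    fpar U δ N m j k w' ck t - fpar U δ N m j k w' ck s = (N k * δ k w'.1 j / m k) * (t - s) := by
  unfold fpar
  ring

/-- FRESH DIRECTIONS: the derivative of the chart in the direction of the row `j` -/
theorem fre (x : RowsF V Q D E f w) (y : RowsK V Q D E f w K A0)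
    (a : ALeaf hvq V Q E f w (aU Q f y.subK) g L La P
      (rv (aU Q f y.subK) (adl S M D w K) (adl_ev S M D w y.K1 x.w01)) N c β A l) (j : Fin q) (i : Fin M) :
    ∃ K' : ℕ → ℝ, (rsp S q).Sub K' ∧ Typ (S := rsp S q) (fun k w' =>
      |deriv (fun t => l.F k w' (Function.update (l.Y.v k w') (Fin.cast a.he.symm (e00 hvq (Sum.inr j))) t) i)
        (l.Y.v k w' (Fin.cast a.he.symm (e00 hvq (Sum.inr j))))| ≤ K' k * 2 ^ (-(w k w'.1 j * (S.F k).n))) := by
  classical
  obtain ⟨ja, hja⟩ : ∃ ja : Fin l.e, ja = Fin.cast a.he.symm (e00 hvq (Sum.inr j)) := ⟨_, rfl⟩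
  rw [← hja]
  obtain ⟨U, hU⟩ : ∃ U : S.VV q, U = aU Q f y.subK := ⟨_, rfl⟩
  obtain ⟨δ, hδ⟩ : ∃ δ : ∀ k, (S.F k).Ω → Fin q → ℝ, δ = adl S M D w K := ⟨_, rfl⟩
  -- the number of the intervals
  obtain ⟨m, hmd⟩ : ∃ m : ℕ → ℕ, m = fun k => ⌈2 * N k⌉₊ + 1 := ⟨_, rfl⟩
  have hm : ∀ k, 1 ≤ m k := fun k => by
    rw [hmd]
    exact Nat.succ_le_succ (Nat.zero_le _)
  have hm2 : ∀ k, 2 * N k ≤ m k := fun k => by
    rw [hmd]
    push_cast
    have := Nat.le_ceil (2 * N k)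
    linarith
  have hms : S.Sub fun k => (m k : ℝ) := by
    have h1 : S.Sub (fun k => 2 * N k + 2) := ((S.Sub_const zero_le_two).mul a.subN).add (S.Sub_const zero_le_two)
    refine h1.mono (Eventually.of_forall fun k => Nat.cast_nonneg _) ?_
    filter_upwards [a.N1] with k hk
    rw [hmd]
    push_cast
    have := (Nat.ceil_lt_add_one (show 0 ≤ 2 * N k by linarith)).le
    linarith
  obtain ⟨K1, hK1, hax⟩ := leaf_axS l 1
  obtain ⟨Kp, hKp, hpt⟩ := l.pt
  -- the function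
  obtain ⟨F1, hF1⟩ : ∃ F1 : ∀ k, ((rsp S q).F k).Ω → ℝ → ℝ, F1 = fun k w' t =>
    l.F k w' (Function.update (l.Y.v k w') ja (fpar U δ N m j k w' (c k w' (e00 hvq (Sum.inr j))) t)) i -
      Q.v k w'.1 i := ⟨_, rfl⟩
  have hYja : ∀ k w', l.Y.v k w' ja = fpar U δ N m j k w' (c k w' (e00 hvq (Sum.inr j))) (fpos S j m k w') := by
    intro k w'
    rw [hja, a.par, fpar_pos _ _ _ _ _ _ _ _ (hm k), a.eR, hU, hδ]
    rfl
  have hupd : ∀ k w', Function.update (l.Y.v k w') ja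
      (fpar U δ N m j k w' (c k w' (e00 hvq (Sum.inr j))) (fpos S j m k w')) = l.Y.v k w' := by
    intro k w'
    rw [← hYja, Function.update_eq_self]
  have hδ0 : ∀ k (ω : (S.F k).Ω) i, 0 < δ k ω i := fun k ω i => by
    rw [hδ]
    exact adl_pos S M D w y.K1 k ω i
  have hδ1 : ∀ᶠ k in UF, ∀ ω, (S.F k).μ ω ≠ 0 → ∀ i, δ k ω i ≤ 1 := by
    filter_upwards [x.w01] with k hk ω hω i
    rw [hδ]
    exact adl_le S M D w y.K1 k ω i (hk ω hω i).2
  -- the step is at most one half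
  have hstep : ∀ᶠ k in UF, ∀ w', ((rsp S q).F k).μ w' ≠ 0 → 0 < N k * δ k w'.1 j / m k ∧
      N k * δ k w'.1 j / m k ≤ 1 / 2 := by
    filter_upwards [a.N1, hδ1] with k h1 h2 w' hw'
    have hw := (rpj S q).supp k w' hw'
    have h3 := h2 w'.1 hw j
    have h4 := hδ0 k w'.1 j
    have h5 := hm2 k
    have h6 : (0 : ℝ) < m k := by linarith
    constructor
    · positivity
    · rw [div_le_iff₀ h6]
      nlinarith
  have hball : ∀ᶠ k in UF, ∀ w', ((rsp S q).F k).μ w' ≠ 0 → ∀ t : ℝ, |t - fpos S j m k w'| < 1 →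
      |fpar U δ N m j k w' (c k w' (e00 hvq (Sum.inr j))) t - l.Y.v k w' ja| < 1 := by
    filter_upwards [hstep] with k h1 w' hw' t ht
    rw [hYja, fpar_sub, abs_mul, abs_of_pos (h1 w' hw').1]
    have := (h1 w' hw').2
    have := (h1 w' hw').1
    nlinarith [abs_nonneg (t - fpos S j m k w')]
  -- typical values
  obtain ⟨K2, G, hK2, hG, hT⟩ := pos_typ (j0 := j) hm hms a.ent F1 (lin g 1) hK1 (by
    filter_upwards [l.fn, a.msc, x.msE, x.msw] with k h1 h2 h3 h4 w1 w2 p1 p2 hz hLa'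
    have b1 : La k w1 w2 := hLa'.1
    have b2 : foth S j k w1 = foth S j k w2 := hLa'.2.1
    have b3 : fidx S j m k w1 = fidx S j m k w2 := hLa'.2.2
    have b4 : w1.1 = w2.1 := (Prod.ext_iff.mp b2).1
    have b5 : Function.update w1.2 j 0 = Function.update w2.2 j 0 := (Prod.ext_iff.mp b2).2
    have b6 : c k w1 = c k w2 := h2 w1 w2 p1 p2 hz b1
    have b7 : l.F k w1 = l.F k w2 := by
      apply h1 w1 w2 p1 p2 hz
      rw [a.eLa]
      exact b1
    rw [hF1]
    funext t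
    show l.F k w1 (Function.update (l.Y.v k w1) ja _) i - Q.v k w1.1 i =
      l.F k w2 (Function.update (l.Y.v k w2) ja _) i - Q.v k w2.1 i
    have b8 : ∀ tt : ℝ, fpar U δ N m j k w1 (c k w1 (e00 hvq (Sum.inr j))) tt =
        fpar U δ N m j k w2 (c k w2 (e00 hvq (Sum.inr j))) tt := by
      intro tt
      unfold fpar
      rw [b3, b4, b6]
    have b9 : ∀ z : ℝ, Function.update (l.Y.v k w1) ja z = Function.update (l.Y.v k w2) ja z := by
      intro z
      funext a'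
      by_cases ha : a' = ja
      · rw [ha, Function.update_self, Function.update_self]
      · rw [Function.update_of_ne ha, Function.update_of_ne ha]
        have e1 : ∀ w', l.Y.v k w' a' = P.v k w' (Fin.cast a.he a') := by
          intro w'
          rw [← a.par k w' (Fin.cast a.he a')]
          rfl
        rw [e1, e1]
        have hne : Fin.cast a.he a' ≠ e00 hvq (Sum.inr j) := by
          intro h
          apply ha
          rw [hja, ← h]
          rfl
        revert hne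
        generalize Fin.cast a.he a' = b
        refine all_e00 hvq (P := fun b => b ≠ e00 hvq (Sum.inr j) → P.v k w1 b = P.v k w2 b) (fun i' _ => ?_)
          (fun j' hj' => ?_) b
        · rw [a.eP, a.eP, b6, b4]
        · have hj'' : j' ≠ j := fun h => hj' (by rw [h])
          have b10 : w1.2 j' = w2.2 j' := by
            have := congrFun b5 j'
            rwa [Function.update_of_ne hj'', Function.update_of_ne hj''] at this
          rw [a.eR, a.eR, b6]
          have e2 : ∀ w' : ((rsp S q).F k).Ω, (rv (aU Q f y.subK) (adl S M D w K) (adl_ev S M D w y.K1 x.w01)).v k w' j' =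
            rvl (aU Q f y.subK) (adl S M D w K) k w' j' := fun _ => rfl
          rw [e2, e2]
          unfold rvl
          rw [b4, b10]
    rw [b8, b9, b7, b4]) (by
    filter_upwards [hax, hball, l.alg, l.crF] with k h1 h2 h3 h4 w' hw'
    have h5 : (fun z => l.F k w' z i - Q.v k w'.1 i) ∈ l.al k w' 1 := by
      have h6 := (h3 w' hw').add 1 (fun z => l.F k w' z i) (fun _ => -Q.v k w'.1 i) (h4 w' hw' i)
        ((h3 w' hw').const' 1 _)
      exact h6
    have h6 := h1 w' hw' _ h5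
    intro α β' hα' hβ'
    have h7 := h6 (l.Y.v k w') (fun i' => by
      rw [sub_self, abs_zero]
      exact one_pos) ja (fpar U δ N m j k w' (c k w' (e00 hvq (Sum.inr j))) α)
      (fpar U δ N m j k w' (c k w' (e00 hvq (Sum.inr j))) β') (h2 w' hw' α hα') (h2 w' hw' β' hβ')
    have e1 : (fun u : ℝ => F1 k w' (α + u * (β' - α))) = fun u =>
        (fun z => l.F k w' z i - Q.v k w'.1 i) (Function.update (l.Y.v k w') ja
          (fpar U δ N m j k w' (c k w' (e00 hvq (Sum.inr j))) α +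
            u * (fpar U δ N m j k w' (c k w' (e00 hvq (Sum.inr j))) β' -
              fpar U δ N m j k w' (c k w' (e00 hvq (Sum.inr j))) α))) := by
      funext u
      rw [hF1]
      show l.F k w' (Function.update (l.Y.v k w') ja (fpar U δ N m j k w' (c k w' (e00 hvq (Sum.inr j)))
        (α + u * (β' - α)))) i - Q.v k w'.1 i = _
      have e2 : fpar U δ N m j k w' (c k w' (e00 hvq (Sum.inr j))) (α + u * (β' - α)) =
          fpar U δ N m j k w' (c k w' (e00 hvq (Sum.inr j))) α +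
            u * (fpar U δ N m j k w' (c k w' (e00 hvq (Sum.inr j))) β' -
              fpar U δ N m j k w' (c k w' (e00 hvq (Sum.inr j))) α) := by
        unfold fpar
        ring
      rw [e2]
    rw [e1]
    exact h7)
  -- the derivative
  have hcA := fun k => cA1_one (M := M) (D := D) (q := q) (y.K1 k)
  refine ⟨fun k => K1 k * (K2 k * Kp k) * (m k * cA1 M D q (K k)),
    (Sp.Sub.mul hK1 (Sp.Sub.mul hK2 hKp)).mul (Sp.Sub.mul (S := rsp S q) hms (sub_cA1 y.subK)), ?_⟩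
  refine Typ.mono hG ?_
  filter_upwards [hT, hax, hball, l.alg, l.crF, hstep, hpt, a.N1, hK1.1, hK2.1, hKp.1] with k h1 h2 h3 h4 h5 h6 h7 h8 g1 g2 g3
    w' hw' hGw
  obtain ⟨ℓ, hℓ⟩ : ∃ ℓ : ℝ, ℓ = N k * δ k w'.1 j / m k := ⟨_, rfl⟩
  have hℓ0 : 0 < ℓ := by
    rw [hℓ]
    exact (h6 w' hw').1
  obtain ⟨gd, hgd, hder⟩ := (h4 w' hw').der 1 (fun z => l.F k w' z i) (h5 w' hw' i) ja
  have hd := hder (l.Y.v k w') (fun i' => by
    rw [sub_self, abs_zero]
    exact one_pos)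
  have hd' := hd
  -- the bound on the segment
  have hbd : ∀ u ∈ Set.Icc (0 : ℝ) 1, |l.F k w' (Function.update (l.Y.v k w') ja
      (l.Y.v k w' ja - ℓ / 2 + u * ℓ)) i - Q.v k w'.1 i| ≤ K2 k * Kp k * (rsp S q).dl 1 k := by
    intro u hu
    have e1 : l.Y.v k w' ja - ℓ / 2 + u * ℓ = fpar U δ N m j k w' (c k w' (e00 hvq (Sum.inr j)))
        (fpos S j m k w' + (u - 1 / 2)) := by
      have h9 := fpar_sub U δ N m j k w' (c k w' (e00 hvq (Sum.inr j))) (fpos S j m k w' + (u - 1 / 2)) (fpos S j m k w')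
      rw [← hYja, ← hℓ] at h9
      have h10 : ℓ * (fpos S j m k w' + (u - 1 / 2) - fpos S j m k w') = u * ℓ - ℓ / 2 := by ring
      rw [h10] at h9
      linarith
    have h9 := h1 w' hw' hGw (fpos S j m k w' + (u - 1 / 2)) (by
      have e3 : fpos S j m k w' + (u - 1 / 2) - fpos S j m k w' = u - 1 / 2 := by ring
      rw [e3, abs_lt]
      constructor <;> linarith [hu.1, hu.2])
    have e3 : F1 k w' (fpos S j m k w' + (u - 1 / 2)) = l.F k w' (Function.update (l.Y.v k w') ja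
      (l.Y.v k w' ja - ℓ / 2 + u * ℓ)) i - Q.v k w'.1 i := by
      rw [e1, hF1]
    have e4 : F1 k w' (fpos S j m k w') = l.F k w' (l.Y.v k w') i - Q.v k w'.1 i := by
      rw [hF1]
      show l.F k w' (Function.update (l.Y.v k w') ja (fpar U δ N m j k w' (c k w' (e00 hvq (Sum.inr j)))
        (fpos S j m k w'))) i - Q.v k w'.1 i = _
      rw [hupd]
    rw [e3, e4] at h9
    refine h9.trans ?_
    have h10 := h7 w' hw' i
    rw [abs_sub_comm] at h10
    rw [mul_assoc]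
    exact mul_le_mul_of_nonneg_left h10 g2
  have hBm : BmS (K1 k) (fun u => (fun t => l.F k w' (Function.update (l.Y.v k w') ja t) i)
      (l.Y.v k w' ja - ℓ / 2 + u * ℓ) - Q.v k w'.1 i) := by
    have h9 : (fun z => l.F k w' z i - Q.v k w'.1 i) ∈ l.al k w' 1 :=
      (h4 w' hw').add 1 (fun z => l.F k w' z i) (fun _ => -Q.v k w'.1 i) (h5 w' hw' i) ((h4 w' hw').const' 1 _)
    have h10 := (h2 w' hw' _ h9 (l.Y.v k w') (fun i' => by
      rw [sub_self, abs_zero]
      exact one_pos) ja (l.Y.v k w' ja - ℓ / 2) (l.Y.v k w' ja + ℓ / 2) (by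
        have e1 : l.Y.v k w' ja - ℓ / 2 - l.Y.v k w' ja = -(ℓ / 2) := by ring
        rw [e1, abs_neg, abs_of_pos (by linarith)]
        have := (h6 w' hw').2
        rw [← hℓ] at this
        linarith) (by
        have e1 : l.Y.v k w' ja + ℓ / 2 - l.Y.v k w' ja = ℓ / 2 := by ring
        rw [e1, abs_of_pos (by linarith)]
        have := (h6 w' hw').2
        rw [← hℓ] at this
        linarith)).2
    have e2 : l.Y.v k w' ja + ℓ / 2 - (l.Y.v k w' ja - ℓ / 2) = ℓ := by ring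
    rw [e2] at h10
    exact h10
  have h9 := deriv_seg hd' hℓ0 g1 (by
    have := (rsp S q).dl_pos 1 k
    positivity) hBm hbd
  rw [hd'.deriv]
  -- sizes
  have hmk : (0 : ℝ) < m k := by exact_mod_cast hm k
  have h10 : δ k w'.1 j / m k ≤ ℓ := by
    rw [hℓ]
    apply div_le_div_of_nonneg_right _ hmk.le
    have := hδ0 k w'.1 j
    nlinarith
  have h11 : |gd (l.Y.v k w')| * (δ k w'.1 j / m k) ≤ K1 k * (K2 k * Kp k * (rsp S q).dl 1 k) :=
    (mul_le_mul_of_nonneg_left h10 (abs_nonneg _)).trans h9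
  have h12 : |gd (l.Y.v k w')| ≤ K1 k * (K2 k * Kp k * (rsp S q).dl 1 k) * (m k * (δ k w'.1 j)⁻¹) := by
    have h13 : 0 < δ k w'.1 j / m k := div_pos (hδ0 k w'.1 j) hmk
    have h14 : |gd (l.Y.v k w')| = |gd (l.Y.v k w')| * (δ k w'.1 j / m k) * (m k * (δ k w'.1 j)⁻¹) := by
      have := hδ0 k w'.1 j
      field_simp
    rw [h14]
    apply mul_le_mul_of_nonneg_right h11
    have := hδ0 k w'.1 j
    positivity
  refine h12.trans (le_of_eq ?_)
  rw [hδ, adl_inv]
  have e1 : (rsp S q).dl 1 k = S.dl 1 k := rfl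
  have e2 : (2 : ℝ) ^ (-(w k w'.1 j * (S.F k).n)) = S.dl 1 k * 2 ^ ((1 - w k w'.1 j) * (S.F k).n) := by
    unfold Sp.dl
    rw [← Real.rpow_add (by norm_num)]
    congr 1
    ring
  rw [e1, e2]
  ring

end

end

end Pool.Agent.Helper76.LVL
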