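import Pool.Agent.Helper76.ADP.Adl

/-! THE FRESH DIGITS OF ONE ROW AS A ONE-PARAMETER LEAF. The values of the fresh variable `j0` are divided into `m` intervals;
the relative position in the interval fills the unit interval over everything of the old space, the other fresh digits, the
interval, and every partition of small entropy. -/

set_option autoImplicit false

namespace Pool.Agent.Helper76.LVL

open Finset Filter Topology Matrix Metric Pool.Agent.Helper69.RK Pool.Agent.Helper31.EC Pool.Agent.Helper31.EC.Sp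
open Pool.Agent.Helper40.EL
open Pool.Agent.Helper3.LF Pool.Agent.Helper84.MT
open Pool.Agent.Helper89.LX (sum_mul_le dl_one_le Sub_pow')
open Pool.Agent.Helper63.FRT (e_pi_le)
open Pool.Agent.Helper76.ADP
open Pool.Agent.Helper81.AD (fu fu_law fu_e)

noncomputable section

variable {S : Sp} {q : ℕ}

section
variable (S) (j0 : Fin q) (m : ℕ → ℕ)

/-- the interval -/
def fidx (k : ℕ) (w : ((rsp S q).F k).Ω) : ℕ := ((w.2 j0 : Fin (gn S k + 1)) : ℕ) * m k / (gn S k + 1)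

/-- the relative position -/
def fpos (k : ℕ) (w : ((rsp S q).F k).Ω) : ℝ :=
  (((w.2 j0 : Fin (gn S k + 1)) : ℕ) : ℝ) * m k / (gn S k + 1) - fidx S j0 m k w

/-- the others -/
def foth (k : ℕ) (w : ((rsp S q).F k).Ω) : (S.F k).Ω × Gf S q k := (w.1, Function.update w.2 j0 0)

end

variable {j0 : Fin q} {m : ℕ → ℕ}

lemma fidx_le (k : ℕ) (w : ((rsp S q).F k).Ω) : (fidx S j0 m k w : ℝ) ≤
    (((w.2 j0 : Fin (gn S k + 1)) : ℕ) : ℝ) * m k / (gn S k + 1) := by
  have hp : (0 : ℝ) < (gn S k : ℝ) + 1 := by positivity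
  rw [le_div_iff₀ hp]
  have h1 : fidx S j0 m k w * (gn S k + 1) ≤ ((w.2 j0 : Fin (gn S k + 1)) : ℕ) * m k := Nat.div_mul_le_self _ _
  exact_mod_cast h1

lemma fidx_lt (k : ℕ) (w : ((rsp S q).F k).Ω) :
    (((w.2 j0 : Fin (gn S k + 1)) : ℕ) : ℝ) * m k / (gn S k + 1) < fidx S j0 m k w + 1 := by
  have hp : (0 : ℝ) < (gn S k : ℝ) + 1 := by positivity
  rw [div_lt_iff₀ hp]
  have h1 : ((w.2 j0 : Fin (gn S k + 1)) : ℕ) * m k < (fidx S j0 m k w + 1) * (gn S k + 1) := by
    have h2 := Nat.lt_div_mul_add (a := ((w.2 j0 : Fin (gn S k + 1)) : ℕ) * m k) (b := gn S k + 1) (Nat.succ_pos _)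
    have h3 : fidx S j0 m k w = ((w.2 j0 : Fin (gn S k + 1)) : ℕ) * m k / (gn S k + 1) := rfl
    rw [h3]
    linarith
  exact_mod_cast h1

lemma fpos_mem (k : ℕ) (w : ((rsp S q).F k).Ω) : 0 ≤ fpos S j0 m k w ∧ fpos S j0 m k w < 1 := by
  have h1 := fidx_le (j0 := j0) (m := m) k w
  have h2 := fidx_lt (j0 := j0) (m := m) k w
  unfold fpos
  constructor <;> linarith

lemma fidx_card (k : ℕ) (hm : 1 ≤ m k) (w : ((rsp S q).F k).Ω) : fidx S j0 m k w < m k := by
  unfold fidx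
  rw [Nat.div_lt_iff_lt_mul (Nat.succ_pos _)]
  have h1 : ((w.2 j0 : Fin (gn S k + 1)) : ℕ) < gn S k + 1 := (w.2 j0).2
  rw [mul_comm]
  exact (Nat.mul_lt_mul_left (by omega)).mpr h1

/-- the position as a variable -/
def fY (S : Sp) (j0 : Fin q) (m : ℕ → ℕ) : (rsp S q).VV 1 where
  v := fun k w _ => fpos S j0 m k w
  bd := ⟨fun _ => 1, (rsp S q).Sub_const zero_le_one, Eventually.of_forall fun k w _ _ => by
    have h1 := fpos_mem (j0 := j0) (m := m) k w
    rw [abs_of_nonneg h1.1]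
    exact h1.2.le⟩

/-- the leaf -/
def fLa (S : Sp) (j0 : Fin q) (m : ℕ → ℕ) (La : ∀ k, Setoid ((rsp S q).F k).Ω) (k : ℕ) : Setoid ((rsp S q).F k).Ω :=
  La k ⊓ (Setoid.ker (foth S j0 k) ⊓ Setoid.ker (fidx S j0 m k))

/-- the fresh digits of one row given everything else -/
theorem one_fresh (k : ℕ) (B : Setoid ((rsp S q).F k).Ω) (hB : ∀ w w', foth S j0 k w = foth S j0 k w' → B w w') :
    Real.logb 2 ((gn S k : ℝ) + 1) ≤ ((rsp S q).F k).e (Setoid.ker fun w => w.2 j0) (Setoid.ker (foth S j0 k) ⊓ B) := by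
  classical
  let F' : FSp := (rsp S q).F k
  have hg : (0 : ℝ) < (gn S k : ℝ) + 1 := by positivity
  -- all digits
  have h1 : F'.e (Setoid.ker Prod.snd) (Setoid.comap Prod.fst (⊥ : Setoid (S.F k).Ω)) =
    Real.logb 2 (Fintype.card (Gf S q k)) := fu_e (S.F k) (Gf S q k) ⊥
  have h2 : Real.logb 2 (Fintype.card (Gf S q k)) = q * Real.logb 2 ((gn S k : ℝ) + 1) := by
    have e1 : (Fintype.card (Gf S q k) : ℝ) = ((gn S k : ℝ) + 1) ^ q := by
      have e3 : Fintype.card (Gf S q k) = (gn S k + 1) ^ q := by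
        rw [Fintype.card_pi]
        simp
      rw [e3]
      push_cast
      rfl
    rw [e1, Real.logb_pow]
  -- the other digits
  set X : F'.Ω → Gf S q k := fun w => Function.update w.2 j0 0 with hX
  have h3 := F'.e_chain (Setoid.ker X) (Setoid.ker fun w => w.2 j0) (Setoid.comap Prod.fst (⊥ : Setoid (S.F k).Ω))
  have h4 : F'.e (Setoid.ker Prod.snd) (Setoid.comap Prod.fst (⊥ : Setoid (S.F k).Ω)) ≤
      F'.e (Setoid.ker X ⊓ Setoid.ker fun w => w.2 j0) (Setoid.comap Prod.fst (⊥ : Setoid (S.F k).Ω)) := by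
    apply F'.e_mono
    intro w w' _ _ h _
    have h5 : X w = X w' := h.1
    have h6 : w.2 j0 = w'.2 j0 := h.2
    show w.2 = w'.2
    funext j
    by_cases hj : j = j0
    · subst hj
      exact h6
    · have h7 := congrFun h5 j
      simp only [hX] at h7
      rwa [Function.update_of_ne hj, Function.update_of_ne hj] at h7
  have h5 : F'.e (Setoid.ker X) (Setoid.comap Prod.fst (⊥ : Setoid (S.F k).Ω)) ≤ (q - 1) * Real.logb 2 ((gn S k : ℝ) + 1) := by
    have h6 := e_pi_le F' X (Setoid.comap Prod.fst (⊥ : Setoid (S.F k).Ω))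
    have h7 : ∀ j, F'.e (Setoid.ker fun w => X w j) (Setoid.comap Prod.fst (⊥ : Setoid (S.F k).Ω)) ≤
        if j = j0 then 0 else Real.logb 2 ((gn S k : ℝ) + 1) := by
      intro j
      by_cases hj : j = j0
      · rw [if_pos hj]
        apply le_of_eq
        apply F'.e_zero
        intro w w' _ _ _
        show X w j = X w' j
        simp only [hX]
        rw [hj, Function.update_self, Function.update_self]
      · rw [if_neg hj]
        have h8 := e_int_pt F' (fun w => (((X w j : Fin (gn S k + 1)) : ℕ) : ℤ)) (Setoid.comap Prod.fst (⊥ : Setoid (S.F k).Ω))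
          (fun _ => gn S k) (by
            intro w0 w w' _ _ _ _ _
            have a1 : ((X w j : Fin (gn S k + 1)) : ℕ) ≤ gn S k := Nat.lt_succ_iff.mp (X w j).2
            have a2 : ((X w' j : Fin (gn S k + 1)) : ℕ) ≤ gn S k := Nat.lt_succ_iff.mp (X w' j).2
            have a3 : (((X w j : Fin (gn S k + 1)) : ℕ) : ℝ) ≤ gn S k := by exact_mod_cast a1
            have a4 : (((X w' j : Fin (gn S k + 1)) : ℕ) : ℝ) ≤ gn S k := by exact_mod_cast a2
            have a5 : (0 : ℝ) ≤ (((X w j : Fin (gn S k + 1)) : ℕ) : ℝ) := Nat.cast_nonneg _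
            have a6 : (0 : ℝ) ≤ (((X w' j : Fin (gn S k + 1)) : ℕ) : ℝ) := Nat.cast_nonneg _
            rw [Int.cast_natCast, Int.cast_natCast, abs_le]
            constructor <;> linarith)
        have h9 : ∑ w, F'.μ w = 1 := F'.ms
        rw [← Finset.sum_mul, h9, one_mul] at h8
        refine le_trans (F'.e_mono ?_) h8
        intro w w' _ _ h _
        have h10 : (((X w j : Fin (gn S k + 1)) : ℕ) : ℤ) = (((X w' j : Fin (gn S k + 1)) : ℕ) : ℤ) := h
        exact Fin.ext (by exact_mod_cast h10)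
    have h8 : ∑ j : Fin q, (if j = j0 then 0 else Real.logb 2 ((gn S k : ℝ) + 1)) =
        (q - 1) * Real.logb 2 ((gn S k : ℝ) + 1) := by
      have h9 : ∀ j : Fin q, (if j = j0 then 0 else Real.logb 2 ((gn S k : ℝ) + 1)) = Real.logb 2 ((gn S k : ℝ) + 1) -
          (if j = j0 then Real.logb 2 ((gn S k : ℝ) + 1) else 0) := by
        intro j
        by_cases hj : j = j0
        · rw [if_pos hj, if_pos hj, sub_self]
        · rw [if_neg hj, if_neg hj, sub_zero]
      rw [Finset.sum_congr rfl fun j _ => h9 j, Finset.sum_sub_distrib, Finset.sum_ite_eq' Finset.univ j0,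
        if_pos (Finset.mem_univ _), Finset.sum_const, Finset.card_univ, Fintype.card_fin, nsmul_eq_mul]
      ring
    calc F'.e (Setoid.ker X) (Setoid.comap Prod.fst (⊥ : Setoid (S.F k).Ω)) ≤ _ := h6
      _ ≤ _ := Finset.sum_le_sum fun j _ => h7 j
      _ = _ := h8
  have h6 : F'.e (Setoid.ker fun w => w.2 j0) (Setoid.ker X ⊓ Setoid.comap Prod.fst (⊥ : Setoid (S.F k).Ω)) ≤
      F'.e (Setoid.ker fun w => w.2 j0) (Setoid.ker (foth S j0 k) ⊓ B) := by
    apply F'.e_anti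
    intro w w' _ _ h
    have h8 : X w = X w' := h.1
    have h9 : w.1 = w'.1 := h.2
    have h7 : foth S j0 k w = foth S j0 k w' := Prod.ext h9 h8
    exact ⟨h7, hB w w' h7⟩
  rw [h1, h2] at h4
  have h7 : F'.e (Setoid.ker fun w => w.2 j0) (Setoid.ker (foth S j0 k) ⊓ B) =
    ((rsp S q).F k).e (Setoid.ker fun w => w.2 j0) (Setoid.ker (foth S j0 k) ⊓ B) := rfl
  rw [← h7]
  linarith

/-- FULLNESS of the position -/
theorem fpos_full (hm : ∀ k, 1 ≤ m k) (hs : S.Sub fun k => (m k : ℝ)) (V : ∀ k, Setoid (S.F k).Ω)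
    (La : ∀ k, Setoid ((rsp S q).F k).Ω)
    (hLa : Tendsto (fun k => h (fc (La k)) (fc ((rpj S q).pb V k)) / ((rsp S q).F k).n) UF (𝓝 0)) :
    Tendsto (fun k => h (fc (Setoid.ker ((fY S j0 m).cellv 1 k))) (fc (fLa S j0 m La k)) / ((rsp S q).F k).n) UF
      (𝓝 ((1 : ℕ) : ℝ)) := by
  have hnn : ∀ k, ((rsp S q).F k).n = (S.F k).n := fun _ => rfl
  have hlm : Tendsto (fun k => Real.logb 2 ((m k : ℝ) + 2) / (S.F k).n) UF (𝓝 0) := hs.2
  have hc : Tendsto (fun k => (2 : ℝ) / (S.F k).n) UF (𝓝 0) := S.div_n_tendsto 2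
  rw [Metric.tendsto_nhds]
  intro ε hε
  filter_upwards [hLa.eventually (gt_mem_nhds (show 0 < ε / 4 by linarith)),
    hlm.eventually (gt_mem_nhds (show 0 < ε / 4 by linarith)),
    hc.eventually (gt_mem_nhds (show 0 < ε / 4 by linarith))] with k a1 a2 a3
  have hn : 0 < (S.F k).n := (S.F k).pos
  rw [hnn, div_lt_iff₀ hn, h_fc] at a1
  rw [div_lt_iff₀ hn] at a2 a3
  set F' : FSp := (rsp S q).F k with hF'
  rw [Real.dist_eq, abs_lt, h_fc, hnn]
  have hd := S.dl_pos 1 k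
  have hd1 : S.dl 1 k * 2 ^ (S.F k).n = 1 := by
    unfold Sp.dl
    rw [← Real.rpow_add (by norm_num)]
    have : -(1 * (S.F k).n) + (S.F k).n = 0 := by ring
    rw [this, Real.rpow_zero]
  have hgn : (0 : ℝ) < (gn S k : ℝ) + 1 := by positivity
  have hcell : ∀ w w' : F'.Ω, (fY S j0 m).cellv 1 k w = (fY S j0 m).cellv 1 k w' →
      |fpos S j0 m k w - fpos S j0 m k w'| ≤ S.dl 1 k := by
    intro w w' h
    have h1 : ⌊fpos S j0 m k w / S.dl 1 k⌋ = ⌊fpos S j0 m k w' / S.dl 1 k⌋ := congrFun h 0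
    exact abs_sub_le_of_floor_eq hd h1
  -- upper bound
  have hup : F'.e (Setoid.ker ((fY S j0 m).cellv 1 k)) (fLa S j0 m La k ⊓ F'.Z) ≤ (S.F k).n + 2 := by
    have h6 := e_pi_le F' ((fY S j0 m).cellv 1 k) (fLa S j0 m La k ⊓ F'.Z)
    rw [Fin.sum_univ_one] at h6
    have h8 := e_int_pt F' (fun w => (fY S j0 m).cellv 1 k w 0) (fLa S j0 m La k ⊓ F'.Z) (fun _ => 2 ^ (S.F k).n + 1) (by
      intro w0 w w' _ _ _ _ _
      show |((⌊fpos S j0 m k w / S.dl 1 k⌋ : ℤ) : ℝ) - ((⌊fpos S j0 m k w' / S.dl 1 k⌋ : ℤ) : ℝ)| ≤ _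
      have b1 := fpos_mem (j0 := j0) (m := m) k w
      have b2 := fpos_mem (j0 := j0) (m := m) k w'
      have c1 := Int.floor_le (fpos S j0 m k w / S.dl 1 k)
      have c2 := Int.lt_floor_add_one (fpos S j0 m k w / S.dl 1 k)
      have c3 := Int.floor_le (fpos S j0 m k w' / S.dl 1 k)
      have c4 := Int.lt_floor_add_one (fpos S j0 m k w' / S.dl 1 k)
      have d1 : ∀ x : ℝ, x < 1 → x / S.dl 1 k ≤ 2 ^ (S.F k).n := by
        intro x hx
        rw [div_le_iff₀ hd, mul_comm, hd1]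
        exact hx.le
      have d2 : ∀ x : ℝ, 0 ≤ x → 0 ≤ x / S.dl 1 k := fun x hx => by positivity
      have e1 := d1 _ b1.2
      have e2 := d1 _ b2.2
      have e3 := d2 _ b1.1
      have e4 := d2 _ b2.1
      rw [abs_le]
      constructor <;> linarith)
    have h9 : ∑ w, F'.μ w = 1 := F'.ms
    rw [← Finset.sum_mul, h9, one_mul] at h8
    have h10 : Real.logb 2 (2 ^ (S.F k).n + 1 + 1) ≤ (S.F k).n + 2 := by
      have h11 : (2 : ℝ) ^ (S.F k).n + 1 + 1 ≤ 2 ^ ((S.F k).n + 2) := by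
        have h12 : (1 : ℝ) ≤ 2 ^ (S.F k).n := Real.one_le_rpow (by norm_num) hn.le
        rw [Real.rpow_add (by norm_num)]
        norm_num
        linarith
      refine (Real.logb_le_logb_of_le (by norm_num) (by positivity) h11).trans (le_of_eq ?_)
      rw [Real.logb_rpow (by norm_num) (by norm_num)]
    exact (h6.trans h8).trans h10
  -- lower bound
  have hlow : (S.F k).n ≤ F'.e (Setoid.ker ((fY S j0 m).cellv 1 k)) (fLa S j0 m La k ⊓ F'.Z) + 2 +
      Real.logb 2 ((m k : ℝ) + 2) + F'.e (La k) ((rpj S q).pb V k ⊓ F'.Z) := by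
    have h0 : (S.F k).n ≤ Real.logb 2 ((gn S k : ℝ) + 1) := by
      have h7 : (S.F k).n = Real.logb 2 (2 ^ (S.F k).n) := by rw [Real.logb_rpow (by norm_num) (by norm_num)]
      rw [h7]
      apply Real.logb_le_logb_of_le (by norm_num) (by positivity)
      have h8 : (2 : ℝ) ^ (S.F k).n ≤ gn S k := Nat.le_ceil _
      linarith
    have hZ : ∀ w w' : F'.Ω, foth S j0 k w = foth S j0 k w' → F'.Z w w' := by
      intro w w' h
      have h1 : w.1 = w'.1 := (Prod.ext_iff.mp h).1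
      show (S.F k).Z w.1 w'.1
      rw [h1]
    have h1 := one_fresh (j0 := j0) k F'.Z hZ
    -- add the interval and the partition
    have h2 := F'.e_chain (La k ⊓ Setoid.ker (fidx S j0 m k)) (Setoid.ker fun w => w.2 j0)
      (Setoid.ker (foth S j0 k) ⊓ F'.Z)
    have h3 : F'.e (Setoid.ker fun w => w.2 j0) (Setoid.ker (foth S j0 k) ⊓ F'.Z) ≤
        F'.e ((La k ⊓ Setoid.ker (fidx S j0 m k)) ⊓ Setoid.ker fun w => w.2 j0) (Setoid.ker (foth S j0 k) ⊓ F'.Z) :=
      F'.e_mono fun w w' _ _ h _ => h.2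
    have h4 : F'.e (La k ⊓ Setoid.ker (fidx S j0 m k)) (Setoid.ker (foth S j0 k) ⊓ F'.Z) ≤
        F'.e (La k) ((rpj S q).pb V k ⊓ F'.Z) + Real.logb 2 ((m k : ℝ) + 2) := by
      have h5 := F'.e_sup_le (La k) (Setoid.ker (fidx S j0 m k)) (Setoid.ker (foth S j0 k) ⊓ F'.Z)
      have h6 : F'.e (La k) (Setoid.ker (foth S j0 k) ⊓ F'.Z) ≤ F'.e (La k) ((rpj S q).pb V k ⊓ F'.Z) := by
        apply F'.e_anti
        intro w w' _ _ h
        refine ⟨?_, h.2⟩
        have h7 : foth S j0 k w = foth S j0 k w' := h.1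
        have h8 : w.1 = w'.1 := (Prod.ext_iff.mp h7).1
        show V k w.1 w'.1
        rw [h8]
      have h7 := e_int_pt F' (fun w => ((fidx S j0 m k w : ℕ) : ℤ)) (Setoid.ker (foth S j0 k) ⊓ F'.Z) (fun _ => (m k : ℝ)) (by
        intro w0 w w' _ _ _ _ _
        have a1 : (fidx S j0 m k w : ℝ) < m k := by exact_mod_cast fidx_card k (hm k) w
        have a2 : (fidx S j0 m k w' : ℝ) < m k := by exact_mod_cast fidx_card k (hm k) w'
        have a3 : (0 : ℝ) ≤ (fidx S j0 m k w : ℝ) := Nat.cast_nonneg _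
        have a4 : (0 : ℝ) ≤ (fidx S j0 m k w' : ℝ) := Nat.cast_nonneg _
        rw [Int.cast_natCast, Int.cast_natCast, abs_le]
        constructor <;> linarith)
      have h9 : ∑ w, F'.μ w = 1 := F'.ms
      rw [← Finset.sum_mul, h9, one_mul] at h7
      have h8 : Real.logb 2 ((m k : ℝ) + 1) ≤ Real.logb 2 ((m k : ℝ) + 2) :=
        Real.logb_le_logb_of_le (by norm_num) (by positivity) (by linarith)
      have h10 : F'.e (Setoid.ker (fidx S j0 m k)) (Setoid.ker (foth S j0 k) ⊓ F'.Z) ≤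
          F'.e (Setoid.ker fun w => ((fidx S j0 m k w : ℕ) : ℤ)) (Setoid.ker (foth S j0 k) ⊓ F'.Z) := by
        apply F'.e_mono
        intro w w' _ _ h _
        have h11 : ((fidx S j0 m k w : ℕ) : ℤ) = ((fidx S j0 m k w' : ℕ) : ℤ) := h
        exact_mod_cast h11
      linarith
    have h5 : F'.e (Setoid.ker fun w => w.2 j0) ((La k ⊓ Setoid.ker (fidx S j0 m k)) ⊓ (Setoid.ker (foth S j0 k) ⊓ F'.Z)) ≤
        F'.e (Setoid.ker ((fY S j0 m).cellv 1 k)) (fLa S j0 m La k ⊓ F'.Z) + 2 := by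
      have e0 : (La k ⊓ Setoid.ker (fidx S j0 m k)) ⊓ (Setoid.ker (foth S j0 k) ⊓ F'.Z) = fLa S j0 m La k ⊓ F'.Z := by
        unfold fLa
        ac_rfl
      rw [e0]
      have h6 := F'.e_triangle (Setoid.ker fun w => w.2 j0) (Setoid.ker ((fY S j0 m).cellv 1 k)) (fLa S j0 m La k ⊓ F'.Z)
      have h7 := e_int_pt F' (fun w => (((w.2 j0 : Fin (gn S k + 1)) : ℕ) : ℤ))
        (Setoid.ker ((fY S j0 m).cellv 1 k) ⊓ (fLa S j0 m La k ⊓ F'.Z)) (fun _ => 3) (by
        intro w0 w w' _ _ _ b1 b2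
        have c1 : |fpos S j0 m k w - fpos S j0 m k w'| ≤ S.dl 1 k := by
          apply hcell
          have d1 : (fY S j0 m).cellv 1 k w = (fY S j0 m).cellv 1 k w0 := b1.1
          have d2 : (fY S j0 m).cellv 1 k w' = (fY S j0 m).cellv 1 k w0 := b2.1
          rw [d1, d2]
        have c2 : fidx S j0 m k w = fidx S j0 m k w' := by
          have d1 : fidx S j0 m k w = fidx S j0 m k w0 := b1.2.1.2.2
          have d2 : fidx S j0 m k w' = fidx S j0 m k w0 := b2.2.1.2.2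
          rw [d1, d2]
        have hmk : (1 : ℝ) ≤ m k := by exact_mod_cast hm k
        have c3 : fpos S j0 m k w - fpos S j0 m k w' = ((((w.2 j0 : Fin (gn S k + 1)) : ℕ) : ℝ) -
            (((w'.2 j0 : Fin (gn S k + 1)) : ℕ) : ℝ)) * (m k / (gn S k + 1)) := by
          unfold fpos
          rw [c2]
          ring
        rw [c3, abs_mul, abs_of_nonneg (by positivity : (0 : ℝ) ≤ (m k : ℝ) / (gn S k + 1))] at c1
        rw [Int.cast_natCast, Int.cast_natCast]
        have c4 : |((((w.2 j0 : Fin (gn S k + 1)) : ℕ) : ℝ) - (((w'.2 j0 : Fin (gn S k + 1)) : ℕ) : ℝ))| * (m k / (gn S k + 1)) ≥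
            |((((w.2 j0 : Fin (gn S k + 1)) : ℕ) : ℝ) - (((w'.2 j0 : Fin (gn S k + 1)) : ℕ) : ℝ))| * (1 / (gn S k + 1)) := by
          apply mul_le_mul_of_nonneg_left _ (abs_nonneg _)
          apply div_le_div_of_nonneg_right hmk hgn.le
        have c5 : |((((w.2 j0 : Fin (gn S k + 1)) : ℕ) : ℝ) - (((w'.2 j0 : Fin (gn S k + 1)) : ℕ) : ℝ))| * (1 / (gn S k + 1)) ≤
            S.dl 1 k := c4.trans c1
        rw [mul_one_div, div_le_iff₀ hgn] at c5
        have c6 : S.dl 1 k * (gn S k + 1) ≤ 3 := by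
          have h8 : (gn S k : ℝ) < 2 ^ (S.F k).n + 1 := Nat.ceil_lt_add_one (by positivity)
          have h10 := dl_one_le S k
          nlinarith
        exact c5.trans c6)
      have h9 : ∑ w, F'.μ w = 1 := F'.ms
      rw [← Finset.sum_mul, h9, one_mul] at h7
      have h8 : Real.logb 2 ((3 : ℝ) + 1) = 2 := by
        have : ((3 : ℝ) + 1) = 2 ^ (2 : ℝ) := by norm_num
        rw [this, Real.logb_rpow (by norm_num) (by norm_num)]
      rw [h8] at h7
      have h10 : F'.e (Setoid.ker fun w => w.2 j0) (Setoid.ker ((fY S j0 m).cellv 1 k) ⊓ (fLa S j0 m La k ⊓ F'.Z)) ≤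
          F'.e (Setoid.ker fun w => (((w.2 j0 : Fin (gn S k + 1)) : ℕ) : ℤ))
            (Setoid.ker ((fY S j0 m).cellv 1 k) ⊓ (fLa S j0 m La k ⊓ F'.Z)) := by
        apply F'.e_mono
        intro w w' _ _ h _
        have h11 : (((w.2 j0 : Fin (gn S k + 1)) : ℕ) : ℤ) = (((w'.2 j0 : Fin (gn S k + 1)) : ℕ) : ℤ) := h
        exact Fin.ext (by exact_mod_cast h11)
      linarith
    linarith
  constructor
  · rw [lt_sub_iff_add_lt, lt_div_iff₀ hn]
    push_cast
    nlinarith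
  · rw [sub_lt_iff_lt_add, div_lt_iff₀ hn]
    push_cast
    nlinarith

/-- THE LEAF of the position -/
def fleaf (S : Sp) (j0 : Fin q) (m : ℕ → ℕ) (hm : ∀ k, 1 ≤ m k) (hs : S.Sub fun k => (m k : ℝ)) (V : ∀ k, Setoid (S.F k).Ω)
    (La : ∀ k, Setoid ((rsp S q).F k).Ω)
    (hLa : Tendsto (fun k => h (fc (La k)) (fc ((rpj S q).pb V k)) / ((rsp S q).F k).n) UF (𝓝 0)) :
    Leaf (rsp S q) (fY S j0 m) (lin 1) :=
  Leaf.ofPoly 1 le_rfl 1 le_rfl (fLa S j0 m La) (fY S j0 m) (fun _ _ i => MvPolynomial.X i)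
    (fun _ _ i => by rw [MvPolynomial.totalDegree_X])
    (Eventually.of_forall fun _ _ _ _ _ _ _ => rfl)
    ⟨fun _ => 1, (rsp S q).Sub_const zero_le_one, Eventually.of_forall fun k ω _ i a => by
      classical
      rw [MvPolynomial.coeff_X]
      split_ifs
      · rw [abs_one]
      · rw [abs_zero]
        exact zero_le_one⟩
    ⟨fun _ => 1, (rsp S q).Sub_const zero_le_one, Eventually.of_forall fun k ω _ i => by
      rw [MvPolynomial.eval_X, sub_self, abs_zero, one_mul]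
      exact ((rsp S q).dl_pos 1 k).le⟩
    (fpos_full hm hs V La hLa)

end

end Pool.Agent.Helper76.LVL
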