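import Pool.Agent.Helper76.LVL.Fre
import Pool.Agent.Helper63.MT.Imu

/-! THE GRADIENT OF THE ADAPTED CHART on the whole cube, and increments of the chart. -/

set_option autoImplicit false

namespace Pool.Agent.Helper76.LVL

open Finset Filter Topology Matrix Metric Pool.Agent.Helper69.RK Pool.Agent.Helper31.EC Pool.Agent.Helper31.EC.Sp
open Pool.Agent.Helper40.EL
open Pool.Agent.Helper3.LF Pool.Agent.Helper84.MT
open Pool.Agent.Helper89.LX (sum_mul_le dl_one_le Sub_pow' leaf_axS typd0 typ_al AxS typd)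
open Pool.Agent.Helper76.THK (e00)
open Pool.Agent.Helper76.ADP

noncomputable section

variable {S : Sp} {M v q D : ℕ}

/-- increments from bounds of the partial derivatives -/
lemma path_le {e : ℕ} {F : (Fin e → ℝ) → ℝ} {Y0 G : Fin e → ℝ}
    (hd : ∀ (a : Fin e) (y : Fin e → ℝ), (∀ i, |y i - Y0 i| < 1) →
      DifferentiableAt ℝ (fun t => F (Function.update y a t)) (y a) ∧
        |deriv (fun t => F (Function.update y a t)) (y a)| ≤ G a)
    {y z : Fin e → ℝ} (hy : ∀ i, |y i - Y0 i| < 1) (hz : ∀ i, |z i - Y0 i| < 1) :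
    |F y - F z| ≤ ∑ a, G a * |y a - z a| := by
  classical
  have key : ∀ s : Finset (Fin e), |F y - F (fun i => if i ∈ s then z i else y i)| ≤ ∑ a ∈ s, G a * |y a - z a| := by
    intro s
    induction s using Finset.induction_on with
    | empty => simp
    | insert a s ha ih =>
      obtain ⟨X, hX⟩ : ∃ X : Fin e → ℝ, X = fun i => if i ∈ s then z i else y i := ⟨_, rfl⟩
      rw [← hX] at ih
      have hXb : ∀ i, |X i - Y0 i| < 1 := by
        intro i
        rw [hX]
        show |(if i ∈ s then z i else y i) - Y0 i| < 1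
        split_ifs
        · exact hz i
        · exact hy i
      have e1 : (fun i => if i ∈ insert a s then z i else y i) = Function.update X a (z a) := by
        funext i
        by_cases hi : i = a
        · subst hi
          rw [Function.update_self, if_pos (Finset.mem_insert_self _ _)]
        · rw [Function.update_of_ne hi, hX]
          simp [Finset.mem_insert, hi]
      have e2 : X = Function.update X a (y a) := by
        funext i
        by_cases hi : i = a
        · subst hi
          rw [Function.update_self, hX]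
          simp [ha]
        · rw [Function.update_of_ne hi]
      have hb : ∀ t ∈ Metric.ball (Y0 a) 1, ∀ i, |Function.update X a t i - Y0 i| < 1 := by
        intro t ht i
        by_cases hi : i = a
        · subst hi
          rw [Function.update_self]
          rw [Metric.mem_ball, Real.dist_eq] at ht
          exact ht
        · rw [Function.update_of_ne hi]
          exact hXb i
      have h1 : ∀ t ∈ Metric.ball (Y0 a) 1, HasDerivWithinAt (fun t => F (Function.update X a t))
          (deriv (fun t => F (Function.update X a t)) t) (Metric.ball (Y0 a) 1) t := by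
        intro t ht
        have h2 := (hd a (Function.update X a t) (hb t ht)).1
        simp only [Function.update_idem, Function.update_self] at h2
        exact h2.hasDerivAt.hasDerivWithinAt
      have h2 : ∀ t ∈ Metric.ball (Y0 a) 1, ‖deriv (fun t => F (Function.update X a t)) t‖ ≤ G a := by
        intro t ht
        have h2 := (hd a (Function.update X a t) (hb t ht)).2
        simp only [Function.update_idem, Function.update_self] at h2
        rw [Real.norm_eq_abs]
        exact h2
      have h3 := Convex.norm_image_sub_le_of_norm_hasDerivWithin_le h1 h2 (convex_ball (Y0 a) 1)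
        (x := z a) (y := y a) (by
          rw [Metric.mem_ball, Real.dist_eq]
          exact hz a) (by
          rw [Metric.mem_ball, Real.dist_eq]
          exact hy a)
      rw [Real.norm_eq_abs, Real.norm_eq_abs] at h3
      rw [e1, Finset.sum_insert ha]
      have h4 : |F y - F (Function.update X a (z a))| ≤ |F y - F X| + |F X - F (Function.update X a (z a))| :=
        abs_sub_le _ _ _
      have h5 : |F X - F (Function.update X a (z a))| ≤ G a * |y a - z a| := by
        have h6 : F X = F (Function.update X a (y a)) := congrArg F e2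
        rw [h6]
        exact h3
      linarith
  have h1 := key Finset.univ
  simpa using h1

section

variable {hvq : v + q = M} {V : ∀ k, Setoid (S.F k).Ω} {Q : S.VV M}
    {E : ∀ k, (S.F k).Ω → (Fin v ⊕ Fin q ≃ Fin M)} {f : ∀ k, (S.F k).Ω → Fin q → MvPolynomial (Fin M) ℝ}
    {w : ∀ k, (S.F k).Ω → Fin q → ℝ} {K : ℕ → ℝ} {A0 : ∀ k, (S.F k).Ω → Prop} {g L : ℕ}
    {La : ∀ k, Setoid ((rsp S q).F k).Ω} {P : (rsp S q).VV M} {N : ℕ → ℝ}
    {c : ∀ k, ((rsp S q).F k).Ω → Fin M → ℤ}
    {β : ∀ k, ((rsp S q).F k).Ω → Fin L} {A : ∀ k, ((rsp S q).F k).Ω → Prop}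
    {l : Leaf (rsp S q) ((rpj S q).vv Q) (Pool.Agent.Helper84.MT.lin g)}

/-- the exponents of all parameters -/
def wal (hvq : v + q = M) (w : Fin q → ℝ) (a : Fin M) : ℝ := Sum.elim (fun _ => 0) w ((e00 hvq).symm a)

lemma wal_inl (hvq : v + q = M) (w : Fin q → ℝ) (i : Fin v) : wal hvq w (e00 hvq (Sum.inl i)) = 0 := by
  unfold wal
  rw [Equiv.symm_apply_apply]
  rfl

lemma wal_inr (hvq : v + q = M) (w : Fin q → ℝ) (j : Fin q) : wal hvq w (e00 hvq (Sum.inr j)) = w j := by
  unfold wal
  rw [Equiv.symm_apply_apply]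
  rfl

/-- the derivative of the chart at the parameter, all directions -/
theorem grad_pt (x : RowsF V Q D E f w) (y : RowsK V Q D E f w K A0)
    (a : ALeaf hvq V Q E f w (aU Q f y.subK) g L La P
      (rv (aU Q f y.subK) (adl S M D w K) (adl_ev S M D w y.K1 x.w01)) N c β A l) (b : Fin M) (i : Fin M) :
    ∃ K' : ℕ → ℝ, (rsp S q).Sub K' ∧ Typ (S := rsp S q) (fun k w' =>
      |deriv (fun t => l.F k w' (Function.update (l.Y.v k w') (Fin.cast a.he.symm b) t) i)
        (l.Y.v k w' (Fin.cast a.he.symm b))| ≤ K' k * 2 ^ (-(wal hvq (w k w'.1) b * (S.F k).n))) := by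
  revert b
  refine all_e00 hvq (P := fun b => ∃ K' : ℕ → ℝ, (rsp S q).Sub K' ∧ Typ (S := rsp S q) (fun k w' =>
      |deriv (fun t => l.F k w' (Function.update (l.Y.v k w') (Fin.cast a.he.symm b) t) i)
        (l.Y.v k w' (Fin.cast a.he.symm b))| ≤ K' k * 2 ^ (-(wal hvq (w k w'.1) b * (S.F k).n)))) (fun i' => ?_) (fun j => ?_)
  · obtain ⟨ja, hja⟩ : ∃ ja : Fin l.e, ja = Fin.cast a.he.symm (e00 hvq (Sum.inl i')) := ⟨_, rfl⟩
    rw [← hja]
    obtain ⟨K1, hK1, hax⟩ := leaf_axS l 1
    obtain ⟨Kb, hKb, hbd⟩ := l.bd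
    refine ⟨fun k => K1 k * Kb k, hK1.mul hKb, ?_⟩
    refine Typ.mono Typ_true ?_
    filter_upwards [hax, hbd, l.alg, l.crF, hK1.1, hKb.1] with k h2 h3 h4 h5 g1 g2 w' hw' _
    obtain ⟨gd, hgd, hder⟩ := (h4 w' hw').der 1 (fun z => l.F k w' z i) (h5 w' hw' i) ja
    have hd := hder (l.Y.v k w') (fun i' => by
      rw [sub_self, abs_zero]
      exact one_pos)
    have hBm : BmS (K1 k) (fun u => (fun t => l.F k w' (Function.update (l.Y.v k w') ja t) i)
        (l.Y.v k w' ja - 1 / 2 + u * 1) - 0) := by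
      have h10 := (h2 w' hw' _ (h5 w' hw' i) (l.Y.v k w') (fun i' => by
        rw [sub_self, abs_zero]
        exact one_pos) ja (l.Y.v k w' ja - 1 / 2) (l.Y.v k w' ja + 1 / 2) (by
          have e1 : l.Y.v k w' ja - 1 / 2 - l.Y.v k w' ja = -(1 / 2) := by ring
          rw [e1, abs_neg, abs_of_pos (by norm_num)]
          norm_num) (by
          have e1 : l.Y.v k w' ja + 1 / 2 - l.Y.v k w' ja = 1 / 2 := by ring
          rw [e1, abs_of_pos (by norm_num)]
          norm_num)).2
      have e2 : l.Y.v k w' ja + 1 / 2 - (l.Y.v k w' ja - 1 / 2) = 1 := by ring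
      rw [e2] at h10
      simp only [sub_zero]
      exact h10
    have h9 := deriv_seg hd one_pos g1 g2 hBm (by
      intro u hu
      rw [sub_zero]
      apply h3 w' hw'
      intro i''
      by_cases hi : i'' = ja
      · rw [hi, Function.update_self]
        have e1 : l.Y.v k w' ja - 1 / 2 + u * 1 - l.Y.v k w' ja = u - 1 / 2 := by ring
        rw [e1, abs_le]
        constructor <;> linarith [hu.1, hu.2]
      · rw [Function.update_of_ne hi, sub_self, abs_zero]
        exact zero_le_one)
    rw [mul_one] at h9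
    rw [hd.deriv, wal_inl, zero_mul, neg_zero, Real.rpow_zero, mul_one]
    exact h9
  · obtain ⟨K', hK', hT⟩ := fre x y a j i
    refine ⟨K', hK', hT.mono (Eventually.of_forall fun k w' _ h => ?_)⟩
    rw [wal_inr]
    exact h

/-- the derivative of the chart on the cube -/
theorem grad_cube (x : RowsF V Q D E f w) (y : RowsK V Q D E f w K A0)
    (a : ALeaf hvq V Q E f w (aU Q f y.subK) g L La P
      (rv (aU Q f y.subK) (adl S M D w K) (adl_ev S M D w y.K1 x.w01)) N c β A l) (b : Fin M) (i : Fin M) :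
    ∃ K' : ℕ → ℝ, (rsp S q).Sub K' ∧ Typ (S := rsp S q) (fun k w' => ∀ z : Fin l.e → ℝ, (∀ i', |z i' - l.Y.v k w' i'| < 1) →
      |deriv (fun t => l.F k w' (Function.update z (Fin.cast a.he.symm b) t) i) (z (Fin.cast a.he.symm b))| ≤
        K' k * 2 ^ (-(wal hvq (w k w'.1) b * (S.F k).n))) := by
  obtain ⟨K1, hK1, h1⟩ := grad_pt x y a b i
  obtain ⟨ja, hja⟩ : ∃ ja : Fin l.e, ja = Fin.cast a.he.symm b := ⟨_, rfl⟩
  rw [← hja] at h1 ⊢
  obtain ⟨K2, hK2, h2⟩ := typ_al l (c := 0) le_rfl one_pos (fun k => FLab.triv ((rsp S q).F k)) (by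
    have h1 : (fun k => (FLab.triv ((rsp S q).F k)).leak (l.win 0 k)) = fun _ => (0 : ℝ) := by
      funext k
      exact FLab.triv_leak _
    show Tendsto _ _ _
    simp only [FLab.triv_leak, zero_div]
    exact tendsto_const_nhds) (D := 2)
    (fun k w' z => deriv (fun t => l.F k w' (Function.update z ja t) i) (z ja)) (by
      filter_upwards [l.alg, l.crF] with k h4 h5 w' hw'
      obtain ⟨gd, hgd, hder⟩ := (h4 w' hw').der 1 (fun z => l.F k w' z i) (h5 w' hw' i) ja
      exact ⟨gd, hgd, fun z hz => ((hder z hz).deriv).symm⟩) (κ := fun _ => 1)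
    ((rsp S q).Sub_const zero_le_one) (by
      filter_upwards [l.fn] with k hk w1 w2 p1 p2 hZ _ hLa _ z _
      have h3 : l.F k w1 = l.F k w2 := hk w1 w2 p1 p2 hZ hLa
      show |deriv (fun t => l.F k w2 (Function.update z ja t) i) (z ja)| ≤
        1 * |deriv (fun t => l.F k w1 (Function.update z ja t) i) (z ja)|
      rw [h3, one_mul])
  have h2' : Typ (S := rsp S q) (fun k w' => ∀ z : Fin l.e → ℝ, (∀ i', |z i' - l.Y.v k w' i'| < (rsp S q).dl 0 k) →
      |deriv (fun t => l.F k w' (Function.update z ja t) i) (z ja)| ≤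
        K2 k * |deriv (fun t => l.F k w' (Function.update (l.Y.v k w') ja t) i) (l.Y.v k w' ja)|) := h2
  refine ⟨fun k => K2 k * K1 k, hK2.mul hK1, Typ.mono (h1.and h2') ?_⟩
  filter_upwards [hK2.1] with k g2 w' _ hh z hz
  have h3 := hh.2 z (fun i' => by
    rw [(rsp S q).dl_zero]
    exact hz i')
  refine h3.trans ?_
  rw [mul_assoc]
  exact mul_le_mul_of_nonneg_left hh.1 g2

/-- the derivatives of the chart on the cube, all directions -/
theorem grad_all (x : RowsF V Q D E f w) (y : RowsK V Q D E f w K A0)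
    (a : ALeaf hvq V Q E f w (aU Q f y.subK) g L La P
      (rv (aU Q f y.subK) (adl S M D w K) (adl_ev S M D w y.K1 x.w01)) N c β A l) :
    ∃ K' : ℕ → ℝ, (rsp S q).Sub K' ∧ Typ (S := rsp S q) (fun k w' => ∀ (b i : Fin M) (z : Fin l.e → ℝ),
      (∀ i', |z i' - l.Y.v k w' i'| < 1) →
      |deriv (fun t => l.F k w' (Function.update z (Fin.cast a.he.symm b) t) i) (z (Fin.cast a.he.symm b))| ≤
        K' k * 2 ^ (-(wal hvq (w k w'.1) b * (S.F k).n))) := by
  choose K1 hK1 hT1 using grad_cube x y a
  have hS : (rsp S q).Sub (fun k => ∑ b, ∑ i, K1 b i k) := by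
    have h1 : ∀ (s : Finset (Fin M × Fin M)), (rsp S q).Sub (fun k => ∑ p ∈ s, K1 p.1 p.2 k) := by
      classical
      intro s
      induction s using Finset.induction_on with
      | empty =>
        simp only [Finset.sum_empty]
        exact (rsp S q).Sub_const le_rfl
      | insert p s hp ih =>
        have e1 : (fun k => ∑ p ∈ insert p s, K1 p.1 p.2 k) = fun k => K1 p.1 p.2 k + ∑ p ∈ s, K1 p.1 p.2 k := by
          funext k
          rw [Finset.sum_insert hp]
        rw [e1]
        exact (hK1 p.1 p.2).add ih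
    have h2 := h1 Finset.univ
    have e1 : (fun k => ∑ p : Fin M × Fin M, K1 p.1 p.2 k) = fun k => ∑ b, ∑ i, K1 b i k := by
      funext k
      rw [Fintype.sum_prod_type]
    rw [e1] at h2
    exact h2
  refine ⟨_, hS, ?_⟩
  have h1 := Pool.Agent.Helper63.MT.typ_all (S := rsp S q) (ι := Fin M × Fin M) (A := fun p k w' =>
    ∀ z : Fin l.e → ℝ, (∀ i', |z i' - l.Y.v k w' i'| < 1) →
      |deriv (fun t => l.F k w' (Function.update z (Fin.cast a.he.symm p.1) t) p.2) (z (Fin.cast a.he.symm p.1))| ≤
        K1 p.1 p.2 k * 2 ^ (-(wal hvq (w k w'.1) p.1 * (S.F k).n))) (fun p => hT1 p.1 p.2)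
  refine Typ.mono h1 ?_
  have hpos : ∀ᶠ k in UF, ∀ b i, 0 ≤ K1 b i k := by
    rw [eventually_all]
    intro b
    rw [eventually_all]
    intro i
    exact (hK1 b i).1
  filter_upwards [hpos] with k hk w' _ hh b i z hz
  refine (hh (b, i) z hz).trans ?_
  apply mul_le_mul_of_nonneg_right _ (by positivity)
  have h3 : K1 b i k ≤ ∑ i, K1 b i k := Finset.single_le_sum (f := fun i => K1 b i k) (fun i _ => hk b i) (Finset.mem_univ i)
  have h4 : ∑ i, K1 b i k ≤ ∑ b, ∑ i, K1 b i k :=
    Finset.single_le_sum (f := fun b => ∑ i, K1 b i k) (fun b _ => Finset.sum_nonneg fun i _ => hk b i) (Finset.mem_univ b)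
  exact h3.trans h4

/-- the chart is differentiable along the coordinates -/
theorem chart_diff (l : Leaf (rsp S q) ((rpj S q).vv Q) (Pool.Agent.Helper84.MT.lin g)) :
    ∀ᶠ k in UF, ∀ w', ((rsp S q).F k).μ w' ≠ 0 → ∀ (ja : Fin l.e) (i : Fin M) (z : Fin l.e → ℝ),
      (∀ i', |z i' - l.Y.v k w' i'| < 1) →
        DifferentiableAt ℝ (fun t => l.F k w' (Function.update z ja t) i) (z ja) := by
  filter_upwards [l.alg, l.crF] with k h4 h5 w' hw' ja i z hz
  obtain ⟨gd, hgd, hder⟩ := (h4 w' hw').der 1 (fun z => l.F k w' z i) (h5 w' hw' i) ja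
  exact (hder z hz).differentiableAt

end

end

end Pool.Agent.Helper76.LVL
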